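import Mathlib

open scoped Manifold ContDiff Bundle Topology
open Bundle Set

namespace Pool.Agent.Helper6.Heis

/-- coordinates space -/
abbrev E3 := EuclideanSpace ℝ (Fin 3)

/-- integral Heisenberg group -/
@[ext] structure HZ where
  a : ℤ
  b : ℤ
  c : ℤ

namespace HZ

instance : Mul HZ := ⟨fun g h => ⟨g.a + h.a, g.b + h.b, g.c + h.c + g.a * h.b⟩⟩
instance : One HZ := ⟨⟨0, 0, 0⟩⟩
instance : Inv HZ := ⟨fun g => ⟨-g.a, -g.b, -g.c + g.a * g.b⟩⟩

@[simp] lemma mul_a (g h : HZ) : (g * h).a = g.a + h.a := rfl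
@[simp] lemma mul_b (g h : HZ) : (g * h).b = g.b + h.b := rfl
@[simp] lemma mul_c (g h : HZ) : (g * h).c = g.c + h.c + g.a * h.b := rfl
@[simp] lemma one_a : (1 : HZ).a = 0 := rfl
@[simp] lemma one_b : (1 : HZ).b = 0 := rfl
@[simp] lemma one_c : (1 : HZ).c = 0 := rfl
@[simp] lemma inv_a (g : HZ) : (g⁻¹).a = -g.a := rfl
@[simp] lemma inv_b (g : HZ) : (g⁻¹).b = -g.b := rfl
@[simp] lemma inv_c (g : HZ) : (g⁻¹).c = -g.c + g.a * g.b := rfl

instance : Group HZ :=
  Group.ofLeftAxioms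
    (fun a b c => by ext <;> simp <;> ring)
    (fun a => by ext <;> simp)
    (fun a => by ext <;> simp)

end HZ

/-- action of the integral Heisenberg group by left translations -/
noncomputable instance : SMul HZ E3 :=
  ⟨fun g q => WithLp.toLp 2 ![q 0 + g.a, q 1 + g.b, q 2 + g.c + g.a * q 1]⟩

@[simp] lemma smul_0 (g : HZ) (q : E3) : (g • q) 0 = q 0 + g.a := rfl
@[simp] lemma smul_1 (g : HZ) (q : E3) : (g • q) 1 = q 1 + g.b := rfl
@[simp] lemma smul_2 (g : HZ) (q : E3) : (g • q) 2 = q 2 + g.c + g.a * q 1 := rfl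

lemma E3.ext' {p q : E3} (h0 : p 0 = q 0) (h1 : p 1 = q 1) (h2 : p 2 = q 2) : p = q := by
  ext i; fin_cases i <;> assumption

noncomputable instance : MulAction HZ E3 where
  one_smul q := by apply E3.ext' <;> simp
  mul_smul g h q := by
    apply E3.ext' <;> simp <;> ring

instance : ContinuousConstSMul HZ E3 where
  continuous_const_smul g := by
    refine (PiLp.continuous_toLp 2 _).comp ?_
    refine continuous_pi fun i => ?_
    fin_cases i <;> simp <;> fun_prop

instance : IsCancelSMul HZ E3 where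
  right_cancel' g h q e := by
    have h0 := congrArg (fun q : E3 => q 0) e
    have h1 := congrArg (fun q : E3 => q 1) e
    have h2 := congrArg (fun q : E3 => q 2) e
    simp at h0 h1 h2
    ext
    · exact h0
    · exact h1
    · rw [h0] at h2
      have : (g.c : ℝ) = h.c := by linarith
      exact_mod_cast this

instance : ProperlyDiscontinuousSMul HZ E3 where
  finite_disjoint_inter_image {K L} hK hL := by
    obtain ⟨R, hR⟩ := (hK.union hL).isBounded.exists_norm_le
    have hc : ∀ q ∈ K ∪ L, ∀ i, |q i| ≤ R := fun q hq i =>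
      (PiLp.norm_apply_le q i).trans (hR q hq)
    obtain ⟨N, hN⟩ := exists_nat_gt (2 * R + 2 * R * R + 1)
    have hfin : (Set.Icc (-(N : ℤ)) N ×ˢ Set.Icc (-(N : ℤ)) N ×ˢ Set.Icc (-(N : ℤ)) N :
        Set (ℤ × ℤ × ℤ)).Finite :=
      (Set.finite_Icc _ _).prod ((Set.finite_Icc _ _).prod (Set.finite_Icc _ _))
    refine (hfin.preimage (f := fun g : HZ => (g.a, g.b, g.c)) ?_).subset ?_
    · intro g _ h _ e
      simp only [Prod.mk.injEq] at e
      exact HZ.ext e.1 e.2.1 e.2.2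
    · rintro g hg
      obtain ⟨_, ⟨q, hqK, rfl⟩, hqL⟩ := hg
      have k0 := hc q (Or.inl hqK) 0
      have k1 := hc q (Or.inl hqK) 1
      have k2 := hc q (Or.inl hqK) 2
      have l0 := hc _ (Or.inr hqL) 0
      have l1 := hc _ (Or.inr hqL) 1
      have l2 := hc _ (Or.inr hqL) 2
      simp only [smul_0, smul_1, smul_2] at l0 l1 l2
      have hR0 : 0 ≤ R := (abs_nonneg _).trans k0
      rw [abs_le] at k0 k1 k2 l0 l1 l2
      have ha : |(g.a : ℝ)| ≤ 2 * R := by rw [abs_le]; constructor <;> linarith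
      have hb : |(g.b : ℝ)| ≤ 2 * R := by rw [abs_le]; constructor <;> linarith
      have hab : |(g.a : ℝ) * q 1| ≤ 2 * R * R := by
        rw [abs_mul]
        exact mul_le_mul ha (abs_le.mpr k1) (abs_nonneg _) (by linarith)
      have hcc : |(g.c : ℝ)| ≤ 2 * R + 2 * R * R := by
        rw [abs_le] at hab ⊢; constructor <;> linarith
      have hNN : 0 ≤ R * R := mul_nonneg hR0 hR0
      have key : ∀ m : ℤ, |(m : ℝ)| ≤ 2 * R + 2 * R * R → m ∈ Set.Icc (-(N : ℤ)) N := by
        intro m hm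
        have : |(m : ℝ)| ≤ N := by linarith
        have h2 : |m| ≤ (N : ℤ) := by exact_mod_cast this
        exact abs_le.mp h2
      exact ⟨key _ (by nlinarith), key _ (by nlinarith), key _ hcc⟩


/-- The Heisenberg nilmanifold. -/
def NilM : Type := MulAction.orbitRel.Quotient HZ E3

instance : TopologicalSpace NilM :=
  inferInstanceAs (TopologicalSpace (MulAction.orbitRel.Quotient HZ E3))

/-- The covering projection. -/
noncomputable def pr : E3 → NilM := (Quotient.mk _ : E3 → MulAction.orbitRel.Quotient HZ E3)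

lemma pr_cov : IsQuotientCoveringMap pr HZ :=
  isQuotientCoveringMap_quotientMk_of_properlyDiscontinuousSMul

lemma pr_lh : IsLocalHomeomorph pr := pr_cov.isCoveringMap.isLocalHomeomorph

lemma pr_cont : Continuous pr := pr_lh.continuous

lemma pr_smul (g : HZ) (q : E3) : pr (g • q) = pr q := pr_cov.map_smul g

lemma pr_eq {p q : E3} : pr p = pr q ↔ ∃ g : HZ, g • q = p := pr_cov.apply_eq_iff_mem_orbit

lemma pr_surj : Function.Surjective pr := Quotient.mk_surjective

/-- chosen lift -/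
noncomputable def lift (p : NilM) : E3 :=
  Quotient.out (show MulAction.orbitRel.Quotient HZ E3 from p)

@[simp] lemma pr_lift (p : NilM) : pr (lift p) = p := Quotient.out_eq _

noncomputable instance nilChartedSpace : ChartedSpace E3 NilM :=
  pr_lh.chartedSpaceOfRightInverse (g := lift) pr_lift

instance : T2Space NilM :=
  inferInstanceAs (T2Space (MulAction.orbitRel.Quotient HZ E3))

instance : SecondCountableTopology NilM :=
  ContinuousConstSMul.secondCountableTopology (Γ := HZ) (T := E3)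

instance : ConnectedSpace NilM := by
  have : IsConnected (Set.range pr) := isConnected_range pr_cont
  rw [pr_surj.range_eq] at this
  exact connectedSpace_iff_univ.mpr this

/-- unit cube -/
def cube : Set E3 := {q | ∀ i, q i ∈ Set.Icc (0:ℝ) 1}

lemma cube_compact : IsCompact cube := by
  have h : IsCompact (Set.pi Set.univ (fun _ : Fin 3 => Set.Icc (0:ℝ) 1)) :=
    isCompact_univ_pi fun _ => isCompact_Icc
  have := h.image (PiLp.continuous_toLp 2 (fun _ : Fin 3 => ℝ))
  refine this.of_isClosed_subset ?_ ?_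
  · have : cube = ⋂ i, (fun q : E3 => q i) ⁻¹' Set.Icc (0:ℝ) 1 := by
      ext q; simp [cube]
    rw [this]
    refine isClosed_iInter fun i => isClosed_Icc.preimage ?_
    fun_prop
  · intro q hq
    exact ⟨fun i => q i, fun i _ => hq i, rfl⟩

lemma exists_smul_mem_cube (q : E3) : ∃ g : HZ, g • q ∈ cube := by
  refine ⟨⟨-⌊q 0⌋, -⌊q 1⌋, -⌊q 2 + ((-⌊q 0⌋ : ℤ) : ℝ) * q 1⌋⟩, ?_⟩
  intro i
  fin_cases i
  · have h1 := Int.floor_le (q 0)
    have h2 := Int.lt_floor_add_one (q 0)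
    simp only [Fin.zero_eta, smul_0]
    push_cast
    constructor <;> linarith
  · have h1 := Int.floor_le (q 1)
    have h2 := Int.lt_floor_add_one (q 1)
    simp only [Fin.mk_one, smul_1]
    push_cast
    constructor <;> linarith
  · have h1 := Int.floor_le (q 2 + ((-⌊q 0⌋ : ℤ) : ℝ) * q 1)
    have h2 := Int.lt_floor_add_one (q 2 + ((-⌊q 0⌋ : ℤ) : ℝ) * q 1)
    simp only [Fin.reduceFinMk, smul_2]
    push_cast at *
    constructor <;> linarith

instance : CompactSpace NilM := by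
  have h := cube_compact.image pr_cont
  have : pr '' cube = Set.univ := by
    refine Set.eq_univ_of_forall fun p => ?_
    obtain ⟨q, rfl⟩ := pr_surj p
    obtain ⟨g, hg⟩ := exists_smul_mem_cube q
    exact ⟨g • q, hg, pr_smul g q⟩
  rw [this] at h
  exact ⟨h⟩

lemma atlas_symm {e : OpenPartialHomeomorph NilM E3} (he : e ∈ atlas E3 NilM) :
    (e.symm : E3 → NilM) = pr := by
  obtain ⟨p, rfl⟩ := he
  ext q
  simp

lemma exists_smul_of_mem_source {e : OpenPartialHomeomorph NilM E3} (he : e ∈ atlas E3 NilM)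
    {x : E3} (hx : pr x ∈ e.source) : ∃ g : HZ, ∀ᶠ y in 𝓝 x, pr y ∈ e.source ∧ e (pr y) = g • y := by
  have h1 : pr (e (pr x)) = pr x := by
    have := e.left_inv hx
    rwa [atlas_symm he] at this
  obtain ⟨g, hg⟩ := pr_eq.mp h1
  refine ⟨g, ?_⟩
  have h2 : g • x ∈ e.target := by rw [hg]; exact e.map_source hx
  have h3 : ∀ᶠ y in 𝓝 x, g • y ∈ e.target :=
    (continuous_const_smul g).continuousAt.eventually_mem (e.open_target.mem_nhds h2)
  filter_upwards [h3] with y hy
  have h4 : e.symm (g • y) = pr y := by rw [atlas_symm he, pr_smul]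
  refine ⟨?_, ?_⟩
  · rw [← h4]; exact e.map_target hy
  · rw [← h4]; exact e.right_inv hy

/-- projections -/
noncomputable abbrev P (i : Fin 3) : E3 →L[ℝ] ℝ := EuclideanSpace.proj i

/-- linear part of the action -/
noncomputable def L (g : HZ) : E3 →L[ℝ] E3 :=
  ContinuousLinearMap.id ℝ E3 + (g.a : ℝ) • (P 1).smulRight (EuclideanSpace.single 2 (1:ℝ))

@[simp] lemma L_0 (g : HZ) (v : E3) : (L g v) 0 = v 0 := by simp [L]
@[simp] lemma L_1 (g : HZ) (v : E3) : (L g v) 1 = v 1 := by simp [L]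
@[simp] lemma L_2 (g : HZ) (v : E3) : (L g v) 2 = v 2 + g.a * v 1 := by simp [L]

lemma smul_eq_L (g : HZ) (q : E3) : g • q = L g q + WithLp.toLp 2 ![(g.a : ℝ), g.b, g.c] := by
  apply E3.ext' <;> simp
  ring

lemma hasFDerivAt_smul (g : HZ) (q : E3) : HasFDerivAt (fun q : E3 => g • q) (L g) q := by
  have : (fun q : E3 => g • q) = fun q => L g q + WithLp.toLp 2 ![(g.a : ℝ), g.b, g.c] :=
    funext (smul_eq_L g)
  rw [this]
  exact (L g).hasFDerivAt.add_const _

lemma contDiff_smul (g : HZ) : ContDiff ℝ ∞ (fun q : E3 => g • q) := by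
  have : (fun q : E3 => g • q) = fun q => L g q + WithLp.toLp 2 ![(g.a : ℝ), g.b, g.c] :=
    funext (smul_eq_L g)
  rw [this]
  exact (L g).contDiff.add contDiff_const

instance : IsManifold (𝓡 3) ∞ NilM := by
  refine isManifold_of_contDiffOn (𝓡 3) ∞ NilM ?_
  intro e e' he he' x hx
  simp only [modelWithCornersSelf_coe, modelWithCornersSelf_coe_symm, Function.id_comp,
    Function.comp_id, Set.preimage_id, Set.range_id, Set.inter_univ] at hx ⊢
  simp only [OpenPartialHomeomorph.trans_source, OpenPartialHomeomorph.symm_source,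
    Set.mem_inter_iff, Set.mem_preimage] at hx
  obtain ⟨hx1, hx2⟩ := hx
  rw [atlas_symm he] at hx2
  obtain ⟨g, hg⟩ := exists_smul_of_mem_source he' hx2
  refine ContDiffAt.contDiffWithinAt ?_
  refine (contDiff_smul g).contDiffAt.congr_of_eventuallyEq ?_
  filter_upwards [hg] with y hy
  simp [atlas_symm he, hy.2]


lemma chartAt_self (p : NilM) : (chartAt E3 p) p = lift p := by
  have h : (chartAt E3 p : OpenPartialHomeomorph NilM E3)
    = (pr_lh.localInverseAt (lift p)).trans (chartAt E3 (lift p)) := rfl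
  rw [h]
  have h2 := pr_lh.localInverseAt_apply_self (x := lift p)
  rw [pr_lift] at h2
  simp [h2]

/-- the derivative of the projection at x is the linear part of the deck transformation to
the chosen lift -/
lemma exists_mfderiv_pr (x : E3) : ∃ g : HZ, g • x = lift (pr x) ∧
    (∀ᶠ y in 𝓝 x, chartAt E3 (pr x) (pr y) = g • y) ∧
    HasMFDerivAt (𝓡 3) (𝓡 3) pr x (L g) := by
  obtain ⟨g, hg⟩ := exists_smul_of_mem_source (chart_mem_atlas E3 (pr x))
    (mem_chart_source E3 (pr x))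
  have hg2 : ∀ᶠ y in 𝓝 x, chartAt E3 (pr x) (pr y) = g • y := hg.mono fun y hy => hy.2
  refine ⟨g, ?_, hg2, ?_⟩
  · rw [← hg2.self_of_nhds, chartAt_self]
  · refine ⟨pr_cont.continuousAt, ?_⟩
    refine HasFDerivAt.hasFDerivWithinAt ?_
    have : HasFDerivAt (fun q : E3 => g • q) (L g) x := hasFDerivAt_smul g x
    refine this.congr_of_eventuallyEq ?_
    filter_upwards [hg2] with y hy
    simpa [writtenInExtChartAt, extChartAt, chartAt_self_eq] using hy

/-- invariant bilinear forms: the Heisenberg-type metric in coordinates. -/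
noncomputable def Gm (q : E3) : E3 →L[ℝ] E3 →L[ℝ] ℝ :=
  ((P 0).smulRight (P 2) + (P 2).smulRight (P 0) + (P 1).smulRight (P 1))
    - q 0 • ((P 0).smulRight (P 1) + (P 1).smulRight (P 0))

lemma Gm_apply (q v w : E3) : Gm q v w =
    v 0 * (w 2 - q 0 * w 1) + w 0 * (v 2 - q 0 * v 1) + v 1 * w 1 := by
  simp [Gm]
  ring

lemma Gm_inv (g : HZ) (q v w : E3) : Gm (g • q) (L g v) (L g w) = Gm q v w := by
  simp [Gm_apply]
  ring


lemma Gm_contDiff : ContDiff ℝ ∞ Gm := by
  have h : ContDiff ℝ ∞ (fun q : E3 =>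
      ((P 0).smulRight ((P 0).smulRight (P 1) + (P 1).smulRight (P 0)) :
        E3 →L[ℝ] (E3 →L[ℝ] E3 →L[ℝ] ℝ)) q) := ContinuousLinearMap.contDiff _
  exact contDiff_const.sub h

lemma symmL_eq {p₀ p : NilM} (hp : p ∈ (chartAt E3 p₀).source) :
    ∃ g : HZ, g • (chartAt E3 p₀ p) = lift p ∧
    (trivializationAt E3 (TangentSpace (𝓡 3)) p₀).symmL ℝ p = L g := by
  obtain ⟨g, hg1, -, hg3⟩ := exists_mfderiv_pr (chartAt E3 p₀ p)
  have hpp : pr (chartAt E3 p₀ p) = p := by
    rw [← atlas_symm (chart_mem_atlas E3 p₀)]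
    exact (chartAt E3 p₀).left_inv hp
  rw [hpp] at hg1
  refine ⟨g, hg1, ?_⟩
  rw [TangentBundle.symmL_trivializationAt hp]
  have h1 : ((extChartAt (𝓡 3) p₀).symm : E3 → NilM) = pr := by
    ext q; simp [extChartAt, atlas_symm (chart_mem_atlas E3 p₀)]
  have h2 : (extChartAt (𝓡 3) p₀) p = chartAt E3 p₀ p := by
    simp [extChartAt]
  have key : ∀ f : E3 → NilM, f = pr → HasMFDerivAt (𝓡 3) (𝓡 3) f (chartAt E3 p₀ p)
      (L g : E3 →L[ℝ] E3) := by
    rintro f rfl; exact hg3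
  have key2 := (key _ h1).hasMFDerivWithinAt (s := range (𝓡 3))
  rw [h2]
  refine key2.mfderivWithin ?_
  simpa using uniqueMDiffWithinAt_univ (𝓡 3)


/-- general descent of smooth invariant bilinear forms -/
lemma contMDiff_bilin (Φ : E3 → (E3 →L[ℝ] E3 →L[ℝ] ℝ)) (hΦ : ContDiff ℝ ∞ Φ)
    (hinv : ∀ (g : HZ) (q v w : E3), Φ (g • q) (L g v) (L g w) = Φ q v w) :
    ContMDiff (𝓡 3) ((𝓡 3).prod 𝓘(ℝ, E3 →L[ℝ] E3 →L[ℝ] ℝ)) ∞
      (fun p : NilM ↦ TotalSpace.mk' (E3 →L[ℝ] E3 →L[ℝ] ℝ)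
        (E := fun p : NilM ↦ TangentSpace (𝓡 3) p →L[ℝ] TangentSpace (𝓡 3) p →L[ℝ] ℝ)
        p (Φ (lift p))) := by
  intro p₀
  rw [contMDiffAt_section]
  have h1 : ContMDiffAt (𝓡 3) 𝓘(ℝ, E3 →L[ℝ] E3 →L[ℝ] ℝ) ∞
      (fun p : NilM => Φ (extChartAt (𝓡 3) p₀ p)) p₀ :=
    hΦ.contMDiff.contMDiffAt.comp p₀ contMDiffAt_extChartAt
  refine h1.congr_of_eventuallyEq ?_
  filter_upwards [(chartAt E3 p₀).open_source.mem_nhds (mem_chart_source E3 p₀)] with p hp
  obtain ⟨g, hg, hg2⟩ := symmL_eq hp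
  have h2 : (extChartAt (𝓡 3) p₀) p = chartAt E3 p₀ p := by
    simp [extChartAt]
  rw [h2]
  ext v w
  have hb : p ∈ (trivializationAt E3 (TangentSpace (𝓡 3)) p₀).baseSet := by
    simpa using hp
  have hs : ∀ v : E3, (trivializationAt E3 (TangentSpace (𝓡 3)) p₀).symm p v = L g v := by
    intro v
    rw [← Trivialization.symmL_apply (R := ℝ) _ hb]
    exact congrArg (fun T : E3 →L[ℝ] E3 => T v) hg2
  have hgoal := inCoordinates_apply_eq₂ (𝕜 := ℝ) (F₁ := E3) (F₂ := E3) (F₃ := ℝ)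
    (E₁ := fun p : NilM ↦ TangentSpace (𝓡 3) p) (E₂ := fun p : NilM ↦ TangentSpace (𝓡 3) p)
    (E₃ := Bundle.Trivial NilM ℝ) (x₀ := p₀) (x := p) (ϕ := Φ (lift p)) (v := v) (w := w)
    hb hb (Set.mem_univ _)
  rw [hom_trivializationAt_apply]
  refine hgoal.trans ?_
  rw [hs, hs]
  rw [← hg]
  refine Eq.trans ?_ (hinv g (chartAt E3 p₀ p) v w)
  simp
  rfl


/-- general descent of smooth invariant linear forms -/
lemma contMDiff_lin (φ : E3 → (E3 →L[ℝ] ℝ)) (hφ : ContDiff ℝ ∞ φ)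
    (hinv : ∀ (g : HZ) (q v : E3), φ (g • q) (L g v) = φ q v) :
    ContMDiff (𝓡 3) ((𝓡 3).prod 𝓘(ℝ, E3 →L[ℝ] ℝ)) ∞
      (fun p : NilM ↦ TotalSpace.mk' (E3 →L[ℝ] ℝ)
        (E := fun p : NilM ↦ TangentSpace (𝓡 3) p →L[ℝ] Bundle.Trivial NilM ℝ p)
        p (φ (lift p))) := by
  intro p₀
  rw [contMDiffAt_section]
  have h1 : ContMDiffAt (𝓡 3) 𝓘(ℝ, E3 →L[ℝ] ℝ) ∞
      (fun p : NilM => φ (extChartAt (𝓡 3) p₀ p)) p₀ :=
    hφ.contMDiff.contMDiffAt.comp p₀ contMDiffAt_extChartAt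
  refine h1.congr_of_eventuallyEq ?_
  filter_upwards [(chartAt E3 p₀).open_source.mem_nhds (mem_chart_source E3 p₀)] with p hp
  obtain ⟨g, hg, hg2⟩ := symmL_eq hp
  have h2 : (extChartAt (𝓡 3) p₀) p = chartAt E3 p₀ p := by
    simp [extChartAt]
  rw [h2]
  ext v
  have hb : p ∈ (trivializationAt E3 (TangentSpace (𝓡 3)) p₀).baseSet := by
    simpa using hp
  have hs : ∀ v : E3, (trivializationAt E3 (TangentSpace (𝓡 3)) p₀).symm p v = L g v := by
    intro v
    rw [← Trivialization.symmL_apply (R := ℝ) _ hb]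
    exact congrArg (fun T : E3 →L[ℝ] E3 => T v) hg2
  rw [hom_trivializationAt_apply]
  refine Eq.trans ?_ (hinv g (chartAt E3 p₀ p) v)
  rw [hg, ← hs v]
  simp [ContinuousLinearMap.inCoordinates]
  rw [Trivialization.symmL_apply (R := ℝ) _ hb]
  rfl

end Pool.Agent.Helper6.Heis
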