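import Pool.Agent.Helper71.Neg.Defs

/-!
# Approximation of circuits without NOT gates by small DNFs and CNFs

Every gate is approximated from above (on the tests `KK en (X x)`) by the family `D` of vertex sets,
and from below (on the tests `T c`) by the family `C` of edge sets; every member of `C` has an edge
inside every member of `D`.
-/

set_option autoImplicit false

namespace Pool.Agent.Helper6.NegA

open Finset Pool.Agent.Helper71.Neg

lemma mem_KK {V E : Type} [DecidableEq V] [Fintype E] (en : E → Finset V) (X : Finset V) (e : E) :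
    e ∈ KK en X ↔ en e ⊆ X := by
  simp [KK]

lemma mem_T {E : Type} [Fintype E] {k : ℕ} (c : E → Fin k) (e : E) :
    e ∈ T c ↔ (c e : ℕ) ≠ 0 := by
  simp [T]

lemma cnt_mono {Ω : Type} [Fintype Ω] {P Q : Ω → Prop} (h : ∀ x, P x → Q x) : cnt P ≤ cnt Q := by
  classical
  unfold cnt
  apply Finset.card_le_card
  intro x hx
  rw [Finset.mem_filter] at hx ⊢
  exact ⟨hx.1, h x hx.2⟩

lemma mem_flt {α : Type} (s : Finset α) (p : α → Prop) (inst : DecidablePred p) (a : α) :
    a ∈ @Finset.filter α p inst s ↔ a ∈ s ∧ p a := Finset.mem_filter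

lemma cnt_or {Ω : Type} [Fintype Ω] (P Q : Ω → Prop) : cnt (fun x => P x ∨ Q x) ≤ cnt P + cnt Q := by
  classical
  unfold cnt
  refine (Finset.card_le_card ?_).trans (Finset.card_union_le _ _)
  intro x hx
  rw [Finset.mem_union]
  have hx2 := (mem_flt _ _ _ _).mp hx
  rcases hx2.2 with h | h
  · exact Or.inl ((mem_flt _ _ _ _).mpr ⟨hx2.1, h⟩)
  · exact Or.inr ((mem_flt _ _ _ _).mpr ⟨hx2.1, h⟩)

lemma cnt_exists {Ω α : Type} [Fintype Ω] (s : Finset α) (P : α → Ω → Prop) :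
    cnt (fun x => ∃ a ∈ s, P a x) ≤ ∑ a ∈ s, cnt (P a) := by
  classical
  induction s using Finset.induction_on with
  | empty =>
    simp [cnt]
  | insert a s ha ih =>
    rw [Finset.sum_insert ha]
    refine le_trans (cnt_mono (Q := fun x => P a x ∨ ∃ b ∈ s, P b x) ?_) ?_
    · rintro x ⟨b, hb, hbx⟩
      rcases Finset.mem_insert.mp hb with h | h
      · left
        rw [← h]
        exact hbx
      · right
        exact ⟨b, h, hbx⟩
    · exact (cnt_or _ _).trans (Nat.add_le_add_left ih _)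

lemma cnt_false {Ω : Type} [Fintype Ω] : cnt (fun _ : Ω => False) = 0 := by
  simp [cnt]

lemma cnt_compl {Ω : Type} [Fintype Ω] (P : Ω → Prop) :
    cnt P + cnt (fun x => ¬ P x) = Fintype.card Ω := by
  classical
  unfold cnt
  have := Finset.card_filter_add_card_filter_not (s := (Finset.univ : Finset Ω)) P
  rw [Finset.card_univ] at this
  rw [← this]
  congr 2
  ext x
  constructor
  · intro h
    have h2 := (mem_flt _ _ _ _).mp h
    exact Finset.mem_filter.mpr h2
  · intro h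
    have h2 := Finset.mem_filter.mp h
    exact (mem_flt _ _ _ _).mpr h2

/-- the number of colourings vanishing on `F` -/
lemma cnt_zero {E : Type} [Fintype E] [DecidableEq E] (k : ℕ) (hk : 1 ≤ k) (F : Finset E) :
    k ^ F.card * cnt (fun c : E → Fin k => ∀ e ∈ F, (c e : ℕ) = 0) = k ^ Fintype.card E := by
  classical
  have hk0 : NeZero k := ⟨by omega⟩
  have h1 : (univ.filter (fun c : E → Fin k => ∀ e ∈ F, (c e : ℕ) = 0)) = Fintype.piFinset
      (fun e => if e ∈ F then ({0} : Finset (Fin k)) else Finset.univ) := by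
    ext d
    rw [Finset.mem_filter, Fintype.mem_piFinset]
    constructor
    · intro h v
      by_cases hv : v ∈ F
      · rw [if_pos hv, Finset.mem_singleton]
        exact Fin.ext (by simpa using h.2 v hv)
      · simp [hv]
    · intro h
      refine ⟨Finset.mem_univ _, fun v hv => ?_⟩
      have := h v
      rw [if_pos hv, Finset.mem_singleton] at this
      rw [this]
      simp
  have h0 : cnt (fun c : E → Fin k => ∀ e ∈ F, (c e : ℕ) = 0)
      = (univ.filter (fun c : E → Fin k => ∀ e ∈ F, (c e : ℕ) = 0)).card := by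
    unfold cnt
    congr 1
    ext c
    simp
  rw [h0, h1, Fintype.card_piFinset]
  have h2 : ∀ v : E, (if v ∈ F then ({0} : Finset (Fin k)) else Finset.univ).card
      = if v ∈ F then 1 else k := by
    intro v
    by_cases hv : v ∈ F
    · simp [hv]
    · simp [hv]
  rw [Finset.prod_congr rfl (fun v _ => h2 v), Finset.prod_ite, Finset.prod_const_one, one_mul,
    Finset.prod_const, ← pow_add]
  congr 1
  have h4 : (Finset.univ.filter (fun v => v ∈ F)) = F := by
    ext v; simp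
  have := Finset.card_filter_add_card_filter_not (s := (Finset.univ : Finset E)) (fun v => v ∈ F)
  rw [h4, Finset.card_univ] at this
  exact this

section trees

variable {V E : Type} [DecidableEq V] [Fintype E] [DecidableEq E]

/-- the tree which turns a CNF into a DNF -/
lemma tree_and (en : E → Finset V) (l ρ : ℕ) (hρ : 1 ≤ ρ) (C : Finset (Finset E))
    (hC : ∀ F ∈ C, F.card ≤ ρ) (m : ℕ) (Z0 : Finset V) (hm : l + 1 ≤ Z0.card + m) :
    ∃ D Err : Finset (Finset V), (∀ Z ∈ D, Z.card ≤ l ∧ ∀ F ∈ C, ∃ e ∈ F, en e ⊆ Z) ∧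
      (∀ Z ∈ Err, l + 1 ≤ Z.card) ∧ Err.card ≤ ρ ^ m ∧
      ∀ Y : Finset V, Z0 ⊆ Y → (∀ F ∈ C, ∃ e ∈ F, en e ⊆ Y) →
        (∃ Z ∈ D, Z ⊆ Y) ∨ ∃ Z ∈ Err, Z ⊆ Y := by
  classical
  induction m generalizing Z0 with
  | zero =>
    refine ⟨∅, {Z0}, by simp, ?_, by simp, ?_⟩
    · intro Z hZ
      rw [Finset.mem_singleton] at hZ
      rw [hZ]
      omega
    · intro Y hY _
      exact Or.inr ⟨Z0, by simp, hY⟩
  | succ m ih =>
    by_cases hbig : l + 1 ≤ Z0.card
    · refine ⟨∅, {Z0}, by simp, ?_, ?_, ?_⟩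
      · intro Z hZ
        rw [Finset.mem_singleton] at hZ
        rw [hZ]
        exact hbig
      · rw [Finset.card_singleton]
        exact Nat.one_le_pow _ _ hρ
      · intro Y hY _
        exact Or.inr ⟨Z0, by simp, hY⟩
    · push Not at hbig
      by_cases hhit : ∀ F ∈ C, ∃ e ∈ F, en e ⊆ Z0
      · refine ⟨{Z0}, ∅, ?_, by simp, by simp, ?_⟩
        · intro Z hZ
          rw [Finset.mem_singleton] at hZ
          rw [hZ]
          exact ⟨by omega, hhit⟩
        · intro Y hY _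
          exact Or.inl ⟨Z0, by simp, hY⟩
      · push Not at hhit
        obtain ⟨F, hF, hFn⟩ := hhit
        have hgrow : ∀ e ∈ F, l + 1 ≤ (Z0 ∪ en e).card + m := by
          intro e he
          have h1 : Z0 ⊂ Z0 ∪ en e := by
            refine Finset.ssubset_iff_subset_ne.mpr ⟨Finset.subset_union_left, ?_⟩
            intro heq
            apply hFn e he
            rw [heq]
            exact Finset.subset_union_right
          have h2 := Finset.card_lt_card h1
          omega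
        have hch : ∀ e : E, ∃ D Err : Finset (Finset V), e ∈ F →
            ((∀ Z ∈ D, Z.card ≤ l ∧ ∀ F ∈ C, ∃ e ∈ F, en e ⊆ Z) ∧
            (∀ Z ∈ Err, l + 1 ≤ Z.card) ∧ Err.card ≤ ρ ^ m ∧
            ∀ Y : Finset V, Z0 ∪ en e ⊆ Y → (∀ F ∈ C, ∃ e ∈ F, en e ⊆ Y) →
              (∃ Z ∈ D, Z ⊆ Y) ∨ ∃ Z ∈ Err, Z ⊆ Y) := by
          intro e
          by_cases he : e ∈ F
          · obtain ⟨D, Err, h⟩ := ih (Z0 ∪ en e) (hgrow e he)
            exact ⟨D, Err, fun _ => h⟩
          · exact ⟨∅, ∅, fun h => absurd h he⟩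
        choose D Err hDE using hch
        refine ⟨F.biUnion D, F.biUnion Err, ?_, ?_, ?_, ?_⟩
        · intro Z hZ
          obtain ⟨e, he, hZe⟩ := Finset.mem_biUnion.mp hZ
          exact (hDE e he).1 Z hZe
        · intro Z hZ
          obtain ⟨e, he, hZe⟩ := Finset.mem_biUnion.mp hZ
          exact (hDE e he).2.1 Z hZe
        · calc (F.biUnion Err).card ≤ F.card * ρ ^ m :=
                Finset.card_biUnion_le_card_mul _ _ _ (fun e he => (hDE e he).2.2.1)
            _ ≤ ρ * ρ ^ m := Nat.mul_le_mul_right _ (hC F hF)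
            _ = ρ ^ (m + 1) := by ring
        · intro Y hY hYC
          obtain ⟨e, he, heY⟩ := hYC F hF
          rcases (hDE e he).2.2.2 Y (Finset.union_subset hY heY) hYC with ⟨Z, hZ, hZY⟩ | ⟨Z, hZ, hZY⟩
          · exact Or.inl ⟨Z, Finset.mem_biUnion.mpr ⟨e, he, hZ⟩, hZY⟩
          · exact Or.inr ⟨Z, Finset.mem_biUnion.mpr ⟨e, he, hZ⟩, hZY⟩

/-- the tree which turns a DNF into a CNF -/
lemma tree_or (en : E → Finset V) (ρ L : ℕ) (D : Finset (Finset V))
    (hD : ∀ Z ∈ D, (KK en Z).card ≤ L) (m : ℕ) (F0 : Finset E) (hm : F0.card + m = ρ + 1) :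
    ∃ C Err : Finset (Finset E), (∀ F ∈ C, F.card ≤ ρ ∧ ∀ Z ∈ D, ∃ e ∈ F, en e ⊆ Z) ∧
      (∀ F ∈ Err, F.card = ρ + 1) ∧ Err.card ≤ L ^ m ∧
      ∀ Y : Finset E, F0 ⊆ Y → (∀ Z ∈ D, ∃ e ∈ Y, en e ⊆ Z) →
        (∃ F ∈ C, F ⊆ Y) ∨ ∃ F ∈ Err, F ⊆ Y := by
  classical
  induction m generalizing F0 with
  | zero =>
    refine ⟨∅, {F0}, by simp, ?_, by simp, ?_⟩
    · intro Z hZ
      rw [Finset.mem_singleton] at hZ
      rw [hZ]
      omega
    · intro Y hY _
      exact Or.inr ⟨F0, by simp, hY⟩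
  | succ m ih =>
    by_cases hhit : ∀ Z ∈ D, ∃ e ∈ F0, en e ⊆ Z
    · refine ⟨{F0}, ∅, ?_, by simp, by simp, ?_⟩
      · intro F hF
        rw [Finset.mem_singleton] at hF
        rw [hF]
        exact ⟨by omega, hhit⟩
      · intro Y hY _
        exact Or.inl ⟨F0, by simp, hY⟩
    · push Not at hhit
      obtain ⟨Z, hZ, hZn⟩ := hhit
      have hgrow : ∀ e ∈ KK en Z, (insert e F0).card + m = ρ + 1 := by
        intro e he
        rw [mem_KK] at he
        have h1 : e ∉ F0 := fun h => hZn e h he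
        rw [Finset.card_insert_of_notMem h1]
        omega
      have hch : ∀ e : E, ∃ C Err : Finset (Finset E), e ∈ KK en Z →
          ((∀ F ∈ C, F.card ≤ ρ ∧ ∀ Z ∈ D, ∃ e ∈ F, en e ⊆ Z) ∧
          (∀ F ∈ Err, F.card = ρ + 1) ∧ Err.card ≤ L ^ m ∧
          ∀ Y : Finset E, insert e F0 ⊆ Y → (∀ Z ∈ D, ∃ e ∈ Y, en e ⊆ Z) →
            (∃ F ∈ C, F ⊆ Y) ∨ ∃ F ∈ Err, F ⊆ Y) := by
        intro e
        by_cases he : e ∈ KK en Z
        · obtain ⟨C, Err, h⟩ := ih (insert e F0) (hgrow e he)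
          exact ⟨C, Err, fun _ => h⟩
        · exact ⟨∅, ∅, fun h => absurd h he⟩
      choose C Err hCE using hch
      refine ⟨(KK en Z).biUnion C, (KK en Z).biUnion Err, ?_, ?_, ?_, ?_⟩
      · intro F hF
        obtain ⟨e, he, hFe⟩ := Finset.mem_biUnion.mp hF
        exact (hCE e he).1 F hFe
      · intro F hF
        obtain ⟨e, he, hFe⟩ := Finset.mem_biUnion.mp hF
        exact (hCE e he).2.1 F hFe
      · calc ((KK en Z).biUnion Err).card ≤ (KK en Z).card * L ^ m :=
              Finset.card_biUnion_le_card_mul _ _ _ (fun e he => (hCE e he).2.2.1)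
          _ ≤ L * L ^ m := Nat.mul_le_mul_right _ (hD Z hZ)
          _ = L ^ (m + 1) := by ring
      · intro Y hY hYD
        obtain ⟨e, he, heZ⟩ := hYD Z hZ
        have heK : e ∈ KK en Z := (mem_KK en Z e).mpr heZ
        rcases (hCE e heK).2.2.2 Y (Finset.insert_subset he hY) hYD with ⟨F, hF, hFY⟩ | ⟨F, hF, hFY⟩
        · exact Or.inl ⟨F, Finset.mem_biUnion.mpr ⟨e, heK, hF⟩, hFY⟩
        · exact Or.inr ⟨F, Finset.mem_biUnion.mpr ⟨e, heK, hF⟩, hFY⟩

end trees

/-- the pair `D`, `C` approximates the function `f` outside of the exceptional sets `B`, `B'` -/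
structure Good {V E ΩX : Type} [DecidableEq V] [Fintype E] [DecidableEq E] (en : E → Finset V)
    (l ρ k : ℕ) (X : ΩX → Finset V) (B : ΩX → Prop) (B' : (E → Fin k) → Prop)
    (D : Finset (Finset V)) (C : Finset (Finset E)) (f : Finset E → Prop) : Prop where
  cardD : ∀ Z ∈ D, Z.card ≤ l
  cardC : ∀ F ∈ C, F.card ≤ ρ
  hit : ∀ F ∈ C, ∀ Z ∈ D, ∃ e ∈ F, en e ⊆ Z
  pos : ∀ x, ¬ B x → f (KK en (X x)) → ∃ Z ∈ D, Z ⊆ X x
  neg : ∀ c, ¬ B' c → (∀ F ∈ C, ∃ e ∈ F, e ∈ T c) → f (T c)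

section good

variable {V E ΩX : Type} [DecidableEq V] [Fintype E] [DecidableEq E]
  {en : E → Finset V} {l ρ k : ℕ} {X : ΩX → Finset V}

lemma Good.mono {B B1 : ΩX → Prop} {B' B1' : (E → Fin k) → Prop} {D : Finset (Finset V)}
    {C : Finset (Finset E)} {f : Finset E → Prop} (h : Good en l ρ k X B B' D C f)
    (hB : ∀ x, B x → B1 x) (hB' : ∀ c, B' c → B1' c) : Good en l ρ k X B1 B1' D C f where
  cardD := h.cardD
  cardC := h.cardC
  hit := h.hit
  pos := fun x hx => h.pos x (fun h' => hx (hB x h'))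
  neg := fun c hc => h.neg c (fun h' => hc (hB' c h'))

lemma Good.congr {B : ΩX → Prop} {B' : (E → Fin k) → Prop} {D : Finset (Finset V)}
    {C : Finset (Finset E)} {f f' : Finset E → Prop} (h : Good en l ρ k X B B' D C f)
    (hf : ∀ G, f' G ↔ f G) : Good en l ρ k X B B' D C f' where
  cardD := h.cardD
  cardC := h.cardC
  hit := h.hit
  pos := fun x hx hfx => h.pos x hx ((hf _).mp hfx)
  neg := fun c hc hC => (hf _).mpr (h.neg c hc hC)

lemma good_const (B : ΩX → Prop) (B' : (E → Fin k) → Prop) (b : Prop) :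
    ∃ D C, Good en l ρ k X B B' D C (fun _ => b) := by
  by_cases hb : b
  · refine ⟨{∅}, ∅, ⟨by simp, by simp, by simp, ?_, ?_⟩⟩
    · intro x _ _
      exact ⟨∅, by simp, by simp⟩
    · intro c _ _
      exact hb
  · refine ⟨∅, {∅}, ⟨by simp, by simp, by simp, ?_, ?_⟩⟩
    · intro x _ h
      exact absurd h hb
    · intro c _ h
      obtain ⟨e, he, -⟩ := h ∅ (by simp)
      simp at he

lemma good_input (hl : ∀ e, (en e).card ≤ l) (hρ : 1 ≤ ρ) (B : ΩX → Prop)
    (B' : (E → Fin k) → Prop) (e : E) :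
    ∃ D C, Good en l ρ k X B B' D C (fun G => e ∈ G) := by
  refine ⟨{en e}, {{e}}, ⟨?_, ?_, ?_, ?_, ?_⟩⟩
  · intro Z hZ
    rw [Finset.mem_singleton] at hZ
    rw [hZ]
    exact hl e
  · intro F hF
    rw [Finset.mem_singleton] at hF
    rw [hF, Finset.card_singleton]
    exact hρ
  · intro F hF Z hZ
    rw [Finset.mem_singleton] at hF hZ
    rw [hF, hZ]
    exact ⟨e, by simp, subset_rfl⟩
  · intro x _ h
    rw [mem_KK] at h
    exact ⟨en e, by simp, h⟩
  · intro c _ h
    obtain ⟨e', he', hT⟩ := h {e} (by simp)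
    rw [Finset.mem_singleton] at he'
    rw [← he']
    exact hT

lemma good_and [Fintype ΩX] (hρ : 1 ≤ ρ) {g : ℕ} (hg : 1 ≤ g)
    (hX : ∀ Z : Finset V, (g : ℝ) ^ Z.card * (cnt (fun x => Z ⊆ X x) : ℝ) ≤ Fintype.card ΩX)
    {B : ΩX → Prop} {B' : (E → Fin k) → Prop}
    {D1 D2 : Finset (Finset V)} {C1 C2 : Finset (Finset E)} {f1 f2 : Finset E → Prop}
    (h1 : Good en l ρ k X B B' D1 C1 f1) (h2 : Good en l ρ k X B B' D2 C2 f2) :
    ∃ (B1 : ΩX → Prop) (D : Finset (Finset V)) (C : Finset (Finset E)),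
      (cnt B1 : ℝ) ≤ ((ρ : ℝ) / g) ^ (l + 1) * Fintype.card ΩX ∧
      Good en l ρ k X (fun x => B x ∨ B1 x) B' D C (fun G => f1 G ∧ f2 G) := by
  classical
  have hgr : (1 : ℝ) ≤ g := by exact_mod_cast hg
  have hC : ∀ F ∈ C1 ∪ C2, F.card ≤ ρ := by
    intro F hF
    rcases Finset.mem_union.mp hF with h | h
    · exact h1.cardC F h
    · exact h2.cardC F h
  obtain ⟨D, Err, hD, hErr, hcard, htree⟩ := tree_and en l ρ hρ (C1 ∪ C2) hC (l + 1) ∅ (by simp)
  refine ⟨fun x => ∃ Z ∈ Err, Z ⊆ X x, D, C1 ∪ C2, ?_,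
    ⟨fun Z hZ => (hD Z hZ).1, hC, fun F hF Z hZ => (hD Z hZ).2 F hF, ?_, ?_⟩⟩
  · have hone : ∀ Z ∈ Err, (cnt (fun x => Z ⊆ X x) : ℝ) ≤ Fintype.card ΩX / (g : ℝ) ^ (l + 1) := by
      intro Z hZ
      rw [le_div_iff₀ (by positivity)]
      refine le_trans ?_ (hX Z)
      rw [mul_comm]
      apply mul_le_mul_of_nonneg_right _ (by positivity)
      exact pow_le_pow_right₀ hgr (hErr Z hZ)
    calc (cnt (fun x => ∃ Z ∈ Err, Z ⊆ X x) : ℝ)
        ≤ ((∑ Z ∈ Err, cnt (fun x => Z ⊆ X x) : ℕ) : ℝ) := by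
          exact_mod_cast cnt_exists Err (fun Z x => Z ⊆ X x)
      _ = ∑ Z ∈ Err, (cnt (fun x => Z ⊆ X x) : ℝ) := by push_cast; rfl
      _ ≤ ∑ _Z ∈ Err, (Fintype.card ΩX : ℝ) / (g : ℝ) ^ (l + 1) := Finset.sum_le_sum hone
      _ = Err.card * ((Fintype.card ΩX : ℝ) / (g : ℝ) ^ (l + 1)) := by
          rw [Finset.sum_const, nsmul_eq_mul]
      _ ≤ (ρ : ℝ) ^ (l + 1) * ((Fintype.card ΩX : ℝ) / (g : ℝ) ^ (l + 1)) := by
          apply mul_le_mul_of_nonneg_right _ (by positivity)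
          exact_mod_cast hcard
      _ = ((ρ : ℝ) / g) ^ (l + 1) * Fintype.card ΩX := by
          rw [div_pow]
          ring
  · intro x hx hf
    rw [not_or] at hx
    obtain ⟨Z1, hZ1, hZ1X⟩ := h1.pos x hx.1 hf.1
    obtain ⟨Z2, hZ2, hZ2X⟩ := h2.pos x hx.1 hf.2
    rcases htree (X x) (Finset.empty_subset _) (by
      intro F hF
      rcases Finset.mem_union.mp hF with h | h
      · obtain ⟨e, he, heZ⟩ := h1.hit F h Z1 hZ1
        exact ⟨e, he, heZ.trans hZ1X⟩
      · obtain ⟨e, he, heZ⟩ := h2.hit F h Z2 hZ2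
        exact ⟨e, he, heZ.trans hZ2X⟩) with h | h
    · exact h
    · exact absurd h hx.2
  · intro c hc hC
    exact ⟨h1.neg c hc (fun F hF => hC F (Finset.mem_union_left _ hF)),
      h2.neg c hc (fun F hF => hC F (Finset.mem_union_right _ hF))⟩

lemma good_or (hk : 1 ≤ k) {L : ℕ} (hL : ∀ Z : Finset V, Z.card ≤ l → (KK en Z).card ≤ L)
    {B : ΩX → Prop} {B' : (E → Fin k) → Prop}
    {D1 D2 : Finset (Finset V)} {C1 C2 : Finset (Finset E)} {f1 f2 : Finset E → Prop}
    (h1 : Good en l ρ k X B B' D1 C1 f1) (h2 : Good en l ρ k X B B' D2 C2 f2) :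
    ∃ (B1 : (E → Fin k) → Prop) (D : Finset (Finset V)) (C : Finset (Finset E)),
      (cnt B1 : ℝ) ≤ ((L : ℝ) / k) ^ (ρ + 1) * Fintype.card (E → Fin k) ∧
      Good en l ρ k X B (fun c => B' c ∨ B1 c) D C (fun G => f1 G ∨ f2 G) := by
  classical
  have hkr : (0 : ℝ) < k := by exact_mod_cast hk
  have hDl : ∀ Z ∈ D1 ∪ D2, Z.card ≤ l := by
    intro Z hZ
    rcases Finset.mem_union.mp hZ with h | h
    · exact h1.cardD Z h
    · exact h2.cardD Z h
  obtain ⟨C, Err, hC, hErr, hcard, htree⟩ := tree_or en ρ L (D1 ∪ D2)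
    (fun Z hZ => hL Z (hDl Z hZ)) (ρ + 1) ∅ (by simp)
  refine ⟨fun c => ∃ F ∈ Err, ∀ e ∈ F, (c e : ℕ) = 0, D1 ∪ D2, C, ?_,
    ⟨hDl, fun F hF => (hC F hF).1, fun F hF Z hZ => (hC F hF).2 Z hZ, ?_, ?_⟩⟩
  · have hone : ∀ F ∈ Err, (cnt (fun c : E → Fin k => ∀ e ∈ F, (c e : ℕ) = 0) : ℝ)
        ≤ (Fintype.card (E → Fin k) : ℝ) / (k : ℝ) ^ (ρ + 1) := by
      intro F hF
      rw [le_div_iff₀ (by positivity)]
      have h3 := cnt_zero k hk F
      rw [hErr F hF] at h3
      have h4 : ((k : ℝ)) ^ (ρ + 1) * (cnt (fun c : E → Fin k => ∀ e ∈ F, (c e : ℕ) = 0) : ℝ)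
          = Fintype.card (E → Fin k) := by
        rw [Fintype.card_fun, Fintype.card_fin]
        exact_mod_cast h3
      rw [← h4, mul_comm]
    calc (cnt (fun c : E → Fin k => ∃ F ∈ Err, ∀ e ∈ F, (c e : ℕ) = 0) : ℝ)
        ≤ ((∑ F ∈ Err, cnt (fun c : E → Fin k => ∀ e ∈ F, (c e : ℕ) = 0) : ℕ) : ℝ) := by
          exact_mod_cast cnt_exists Err (fun F (c : E → Fin k) => ∀ e ∈ F, (c e : ℕ) = 0)
      _ = ∑ F ∈ Err, (cnt (fun c : E → Fin k => ∀ e ∈ F, (c e : ℕ) = 0) : ℝ) := by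
          push_cast; rfl
      _ ≤ ∑ _F ∈ Err, (Fintype.card (E → Fin k) : ℝ) / (k : ℝ) ^ (ρ + 1) :=
          Finset.sum_le_sum hone
      _ = Err.card * ((Fintype.card (E → Fin k) : ℝ) / (k : ℝ) ^ (ρ + 1)) := by
          rw [Finset.sum_const, nsmul_eq_mul]
      _ ≤ (L : ℝ) ^ (ρ + 1) * ((Fintype.card (E → Fin k) : ℝ) / (k : ℝ) ^ (ρ + 1)) := by
          apply mul_le_mul_of_nonneg_right _ (by positivity)
          exact_mod_cast hcard
      _ = ((L : ℝ) / k) ^ (ρ + 1) * Fintype.card (E → Fin k) := by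
          rw [div_pow]
          ring
  · intro x hx hf
    rcases hf with h | h
    · obtain ⟨Z, hZ, hZX⟩ := h1.pos x hx h
      exact ⟨Z, Finset.mem_union_left _ hZ, hZX⟩
    · obtain ⟨Z, hZ, hZX⟩ := h2.pos x hx h
      exact ⟨Z, Finset.mem_union_right _ hZ, hZX⟩
  · intro c hc hCT
    rw [not_or] at hc
    by_contra hcon
    rw [not_or] at hcon
    have h3 : ∃ F ∈ C1, ∀ e ∈ F, e ∉ T c := by
      by_contra h
      push Not at h
      exact hcon.1 (h1.neg c hc.1 h)
    have h4 : ∃ F ∈ C2, ∀ e ∈ F, e ∉ T c := by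
      by_contra h
      push Not at h
      exact hcon.2 (h2.neg c hc.1 h)
    obtain ⟨F1, hF1, hF1T⟩ := h3
    obtain ⟨F2, hF2, hF2T⟩ := h4
    rcases htree (univ.filter (fun e => e ∉ T c)) (Finset.empty_subset _) (by
      intro Z hZ
      rcases Finset.mem_union.mp hZ with h | h
      · obtain ⟨e, he, heZ⟩ := h1.hit F1 hF1 Z h
        exact ⟨e, by simp [hF1T e he], heZ⟩
      · obtain ⟨e, he, heZ⟩ := h2.hit F2 hF2 Z h
        exact ⟨e, by simp [hF2T e he], heZ⟩) with ⟨F, hF, hFY⟩ | ⟨F, hF, hFY⟩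
    · obtain ⟨e, he, heT⟩ := hCT F hF
      exact (Finset.mem_filter.mp (hFY he)).2 heT
    · apply hc.2
      refine ⟨F, hF, fun e he => ?_⟩
      have h5 := (Finset.mem_filter.mp (hFY he)).2
      rw [mem_T] at h5
      push Not at h5
      exact h5

end good

/-- **the approximation theorem** -/
theorem approx {V E ΩX : Type} [Fintype V] [DecidableEq V] [Fintype E] [DecidableEq E] [Fintype ΩX]
    (en : E → Finset V) (l ρ L S g k : ℕ) (hl : ∀ e, (en e).card ≤ l) (hρ : 1 ≤ ρ) (hg : 1 ≤ g)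
    (hk : 1 ≤ k) (hL : ∀ Z : Finset V, Z.card ≤ l → (KK en Z).card ≤ L)
    (X : ΩX → Finset V)
    (hX : ∀ Z : Finset V, (g : ℝ) ^ Z.card * (cnt (fun x => Z ⊆ X x) : ℝ) ≤ Fintype.card ΩX)
    (f : ℕ → Finset E → Prop) (P : ℕ → Prop)
    (hf : ∀ i < S, P i → (∃ b : Prop, ∀ G, f i G ↔ b) ∨ (∃ e, ∀ G, f i G ↔ e ∈ G) ∨
      (∃ j < i, ∃ m < i, P j ∧ P m ∧
        ((∀ G, f i G ↔ (f j G ∧ f m G)) ∨ (∀ G, f i G ↔ (f j G ∨ f m G))))) :
    ∃ B : ΩX → Prop, (cnt B : ℝ) ≤ S * ((ρ : ℝ) / g) ^ (l + 1) * Fintype.card ΩX ∧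
      ∀ i < S, P i → (∀ x, ¬ B x → ¬ f i (KK en (X x))) ∨
        (1 - ((L : ℝ) / k + S * ((L : ℝ) / k) ^ (ρ + 1))) * (Fintype.card (E → Fin k) : ℝ) ≤
          (cnt (fun c : E → Fin k => f i (T c)) : ℝ) := by
  classical
  have hkr : (0 : ℝ) < k := by exact_mod_cast hk
  have hgr : (0 : ℝ) < g := by exact_mod_cast hg
  have key : ∀ N ≤ S, ∃ (B : ΩX → Prop) (B' : (E → Fin k) → Prop),
      (cnt B : ℝ) ≤ N * (((ρ : ℝ) / g) ^ (l + 1) * Fintype.card ΩX) ∧
      (cnt B' : ℝ) ≤ N * (((L : ℝ) / k) ^ (ρ + 1) * Fintype.card (E → Fin k)) ∧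
      ∀ i < N, P i → ∃ D C, Good en l ρ k X B B' D C (f i) := by
    intro N
    induction N with
    | zero =>
      intro _
      refine ⟨fun _ => False, fun _ => False, ?_, ?_, fun i hi => absurd hi (by omega)⟩
      · simp [cnt_false]
      · simp [cnt_false]
    | succ N ih =>
      intro hN
      obtain ⟨B, B', hB, hB', hgood⟩ := ih (by omega)
      have e1 : 0 ≤ ((ρ : ℝ) / g) ^ (l + 1) * Fintype.card ΩX := by positivity
      have e2 : 0 ≤ ((L : ℝ) / k) ^ (ρ + 1) * (Fintype.card (E → Fin k) : ℝ) := by positivity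
      by_cases hPN : P N
      · rcases hf N (by omega) hPN with ⟨b, hb⟩ | ⟨e, he⟩ | ⟨j, hj, m, hm, hPj, hPm, h | h⟩
        · refine ⟨B, B', ?_, ?_, ?_⟩
          · push_cast
            linarith
          · push_cast
            linarith
          · intro i hi hPi
            rcases Nat.lt_succ_iff_lt_or_eq.mp hi with h | h
            · exact hgood i h hPi
            · subst h
              obtain ⟨D, C, hDC⟩ := good_const (en := en) (l := l) (ρ := ρ) (X := X) B B' b
              exact ⟨D, C, hDC.congr hb⟩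
        · refine ⟨B, B', ?_, ?_, ?_⟩
          · push_cast
            linarith
          · push_cast
            linarith
          · intro i hi hPi
            rcases Nat.lt_succ_iff_lt_or_eq.mp hi with h | h
            · exact hgood i h hPi
            · subst h
              obtain ⟨D, C, hDC⟩ := good_input (en := en) (l := l) (ρ := ρ) (X := X) hl hρ B B' e
              exact ⟨D, C, hDC.congr he⟩
        · obtain ⟨D1, C1, h1⟩ := hgood j hj hPj
          obtain ⟨D2, C2, h2⟩ := hgood m hm hPm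
          obtain ⟨B1, D, C, hB1, hDC⟩ := good_and hρ hg hX h1 h2
          refine ⟨fun x => B x ∨ B1 x, B', ?_, ?_, ?_⟩
          · have h3 : (cnt (fun x => B x ∨ B1 x) : ℝ) ≤ cnt B + cnt B1 := by
              exact_mod_cast cnt_or B B1
            push_cast
            linarith
          · push_cast
            linarith
          · intro i hi hPi
            rcases Nat.lt_succ_iff_lt_or_eq.mp hi with h' | h'
            · obtain ⟨D', C', hDC'⟩ := hgood i h' hPi
              exact ⟨D', C', hDC'.mono (fun x hx => Or.inl hx) (fun c hc => hc)⟩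
            · subst h'
              exact ⟨D, C, hDC.congr h⟩
        · obtain ⟨D1, C1, h1⟩ := hgood j hj hPj
          obtain ⟨D2, C2, h2⟩ := hgood m hm hPm
          obtain ⟨B1, D, C, hB1, hDC⟩ := good_or hk hL h1 h2
          refine ⟨B, fun c => B' c ∨ B1 c, ?_, ?_, ?_⟩
          · push_cast
            linarith
          · have h3 : (cnt (fun c => B' c ∨ B1 c) : ℝ) ≤ cnt B' + cnt B1 := by
              exact_mod_cast cnt_or B' B1
            push_cast
            linarith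
          · intro i hi hPi
            rcases Nat.lt_succ_iff_lt_or_eq.mp hi with h' | h'
            · obtain ⟨D', C', hDC'⟩ := hgood i h' hPi
              exact ⟨D', C', hDC'.mono (fun x hx => hx) (fun c hc => Or.inl hc)⟩
            · subst h'
              exact ⟨D, C, hDC.congr h⟩
      · refine ⟨B, B', ?_, ?_, ?_⟩
        · push_cast
          linarith
        · push_cast
          linarith
        · intro i hi hPi
          rcases Nat.lt_succ_iff_lt_or_eq.mp hi with h | h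
          · exact hgood i h hPi
          · subst h
            exact absurd hPi hPN
  obtain ⟨B, B', hB, hB', hgood⟩ := key S le_rfl
  refine ⟨B, by rw [mul_assoc]; exact hB, ?_⟩
  intro i hi hPi
  obtain ⟨D, C, hDC⟩ := hgood i hi hPi
  rcases Finset.eq_empty_or_nonempty D with hD | ⟨Z, hZ⟩
  · left
    intro x hx hfx
    obtain ⟨Z, hZ, -⟩ := hDC.pos x hx hfx
    rw [hD] at hZ
    simp at hZ
  · right
    -- colourings for which some edge inside Z is absent
    have h1 : ∀ c : E → Fin k, ¬ f i (T c) → B' c ∨ ∃ e ∈ KK en Z, (c e : ℕ) = 0 := by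
      intro c hc
      by_contra hcon
      push Not at hcon
      apply hc
      apply hDC.neg c hcon.1
      intro F hF
      obtain ⟨e, he, heZ⟩ := hDC.hit F hF Z hZ
      refine ⟨e, he, ?_⟩
      rw [mem_T]
      exact hcon.2 e ((mem_KK en Z e).mpr heZ)
    have h2 : (cnt (fun c : E → Fin k => ¬ f i (T c)) : ℝ)
        ≤ cnt B' + cnt (fun c : E → Fin k => ∃ e ∈ KK en Z, (c e : ℕ) = 0) := by
      exact_mod_cast (cnt_mono h1).trans (cnt_or _ _)
    have h3 : (cnt (fun c : E → Fin k => ∃ e ∈ KK en Z, (c e : ℕ) = 0) : ℝ)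
        ≤ (L : ℝ) / k * Fintype.card (E → Fin k) := by
      have hone : ∀ e ∈ KK en Z, (cnt (fun c : E → Fin k => (c e : ℕ) = 0) : ℝ)
          ≤ (Fintype.card (E → Fin k) : ℝ) / k := by
        intro e _
        rw [le_div_iff₀ hkr]
        have h4 := cnt_zero k hk ({e} : Finset E)
        rw [Finset.card_singleton, pow_one] at h4
        have h5 : cnt (fun c : E → Fin k => ∀ e' ∈ ({e} : Finset E), (c e' : ℕ) = 0)
            = cnt (fun c : E → Fin k => (c e : ℕ) = 0) := by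
          congr 1
          funext c
          simp
        rw [h5] at h4
        have h6 : (k : ℝ) * (cnt (fun c : E → Fin k => (c e : ℕ) = 0) : ℝ)
            = Fintype.card (E → Fin k) := by
          rw [Fintype.card_fun, Fintype.card_fin]
          exact_mod_cast h4
        rw [← h6, mul_comm]
      calc (cnt (fun c : E → Fin k => ∃ e ∈ KK en Z, (c e : ℕ) = 0) : ℝ)
          ≤ ((∑ e ∈ KK en Z, cnt (fun c : E → Fin k => (c e : ℕ) = 0) : ℕ) : ℝ) := by
            exact_mod_cast cnt_exists (KK en Z) (fun e (c : E → Fin k) => (c e : ℕ) = 0)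
        _ = ∑ e ∈ KK en Z, (cnt (fun c : E → Fin k => (c e : ℕ) = 0) : ℝ) := by
            push_cast; rfl
        _ ≤ ∑ _e ∈ KK en Z, (Fintype.card (E → Fin k) : ℝ) / k := Finset.sum_le_sum hone
        _ = (KK en Z).card * ((Fintype.card (E → Fin k) : ℝ) / k) := by
            rw [Finset.sum_const, nsmul_eq_mul]
        _ ≤ L * ((Fintype.card (E → Fin k) : ℝ) / k) := by
            apply mul_le_mul_of_nonneg_right _ (by positivity)
            exact_mod_cast hL Z (hDC.cardD Z hZ)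
        _ = (L : ℝ) / k * Fintype.card (E → Fin k) := by ring
    have h4 : (cnt (fun c : E → Fin k => f i (T c)) : ℝ)
        + (cnt (fun c : E → Fin k => ¬ f i (T c)) : ℝ) = Fintype.card (E → Fin k) := by
      exact_mod_cast cnt_compl (fun c : E → Fin k => f i (T c))
    have h5 : (1 - ((L : ℝ) / k + S * ((L : ℝ) / k) ^ (ρ + 1))) * (Fintype.card (E → Fin k) : ℝ)
        = Fintype.card (E → Fin k) - (L : ℝ) / k * Fintype.card (E → Fin k)
          - S * (((L : ℝ) / k) ^ (ρ + 1) * Fintype.card (E → Fin k)) := by ring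
    rw [h5]
    linarith

end Pool.Agent.Helper6.NegA
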