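import Pool.Agent.Helper71.Neg.Defs

/-!
# Circuits with few NOT gates: flattening

A circuit with `T` NOT gates is turned into a circuit whose NOT gates are replaced by one level of
arbitrary gates which read at most `2 ^ T - 1` gates of a monotone circuit: for every pattern of the
outputs of the NOT gates, the circuit with these constants in place of the NOT gates is monotone.
-/

set_option autoImplicit false

namespace Pool.Agent.Helper6.NegF

open Finset Pool.Agent.Helper71.Neg

/-- Circuits on the instances `G : Γ` with inputs `x e`. The gates are numbered `0, …, S - 1`, and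
gate `i` computes the predicate `f i`. The gates `i ∈ N` are NOT gates, each negates an earlier
gate; the other gates are constants, inputs, or the AND or OR of two earlier gates. -/
structure NotCirc {Γ ι : Type} (x : ι → Γ → Prop) (S : ℕ) (f : ℕ → Γ → Prop) (N : Finset ℕ) :
    Prop where
  gate : ∀ i < S, i ∉ N →
    (∃ b : Prop, ∀ G, f i G ↔ b) ∨ (∃ e, ∀ G, f i G ↔ x e G) ∨
    (∃ j < i, ∃ k < i, (∀ G, f i G ↔ (f j G ∧ f k G)) ∨ (∀ G, f i G ↔ (f j G ∨ f k G)))
  neg : ∀ i < S, i ∈ N → ∃ j < i, ∀ G, f i G ↔ ¬ f j G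

/-- the type of a gate -/
inductive Op (ι : Type) : Type where
  | cst (b : Prop) : Op ι
  | inp (e : ι) : Op ι
  | and (j k : ℕ) : Op ι
  | or (j k : ℕ) : Op ι

section ev

variable {Γ ι : Type}

/-- `op` is a correct type for gate `i` -/
def Fits (x : ι → Γ → Prop) (f : ℕ → Γ → Prop) (i : ℕ) : Op ι → Prop
  | Op.cst b => ∀ G, f i G ↔ b
  | Op.inp e => ∀ G, f i G ↔ x e G
  | Op.and j k => j < i ∧ k < i ∧ ∀ G, f i G ↔ (f j G ∧ f k G)
  | Op.or j k => j < i ∧ k < i ∧ ∀ G, f i G ↔ (f j G ∨ f k G)

/-- the value of a gate computed from the table `t` of earlier values -/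
def val (x : ι → Γ → Prop) (G : Γ) (t : ℕ → Prop) : Op ι → Prop
  | Op.cst b => b
  | Op.inp e => x e G
  | Op.and j k => t j ∧ t k
  | Op.or j k => t j ∨ t k

open Classical in
/-- the table of the values of the first gates, the NOT gates replaced by constants -/
noncomputable def tab (x : ι → Γ → Prop) (N : Finset ℕ) (op : ℕ → Op ι) (π : ℕ → Prop) (G : Γ) :
    ℕ → ℕ → Prop
  | 0 => fun _ => False
  | n + 1 => Function.update (tab x N op π G n) n
      (if n ∈ N then π n else val x G (tab x N op π G n) (op n))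

/-- the values of the gates, the NOT gates replaced by constants -/
noncomputable def ev (x : ι → Γ → Prop) (N : Finset ℕ) (op : ℕ → Op ι) (π : ℕ → Prop) (i : ℕ)
    (G : Γ) : Prop := tab x N op π G (i + 1) i

lemma tab_eq (x : ι → Γ → Prop) (N : Finset ℕ) (op : ℕ → Op ι) (π : ℕ → Prop) (G : Γ) (n i : ℕ)
    (h : i < n) : tab x N op π G n i = ev x N op π i G := by
  induction n with
  | zero => omega
  | succ n ih =>
    rcases Nat.lt_succ_iff_lt_or_eq.mp h with h1 | h1
    · have h2 : tab x N op π G (n + 1) i = tab x N op π G n i := by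
        show Function.update _ _ _ _ = _
        rw [Function.update_of_ne (by omega)]
      rw [h2, ih h1]
    · rw [h1]
      rfl

lemma ev_neg (x : ι → Γ → Prop) (N : Finset ℕ) (op : ℕ → Op ι) (π : ℕ → Prop) (i : ℕ) (G : Γ)
    (h : i ∈ N) : ev x N op π i G = π i := by
  show Function.update _ _ _ _ = _
  rw [Function.update_self, if_pos h]

lemma ev_gate (x : ι → Γ → Prop) (N : Finset ℕ) (op : ℕ → Op ι) (π : ℕ → Prop) (i : ℕ) (G : Γ)
    (h : i ∉ N) : ev x N op π i G = val x G (tab x N op π G i) (op i) := by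
  show Function.update _ _ _ _ = _
  rw [Function.update_self, if_neg h]

/-- the values depend only on the earlier constants -/
lemma tab_congr (x : ι → Γ → Prop) (N : Finset ℕ) (op : ℕ → Op ι) (π π' : ℕ → Prop) (G : Γ)
    (n : ℕ) (h : ∀ i ∈ N, i < n → π i = π' i) : tab x N op π G n = tab x N op π' G n := by
  induction n with
  | zero => rfl
  | succ n ih =>
    have h1 := ih fun i hi hn => h i hi (by omega)
    show Function.update _ _ _ = Function.update _ _ _
    rw [h1]
    congr 1
    by_cases hn : n ∈ N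
    · rw [if_pos hn, if_pos hn, h n hn (by omega)]
    · rw [if_neg hn, if_neg hn]

lemma ev_congr (x : ι → Γ → Prop) (N : Finset ℕ) (op : ℕ → Op ι) (π π' : ℕ → Prop) (G : Γ)
    (i : ℕ) (h : ∀ j ∈ N, j ≤ i → π j = π' j) : ev x N op π i G = ev x N op π' i G := by
  unfold ev
  rw [tab_congr x N op π π' G (i + 1) fun j hj hi => h j hj (by omega)]

/-- a consistent pattern of the NOT gates gives the true values -/
lemma ev_true {x : ι → Γ → Prop} {S : ℕ} {f : ℕ → Γ → Prop} {N : Finset ℕ} {op : ℕ → Op ι}
    {src : ℕ → ℕ} (hop : ∀ i < S, i ∉ N → Fits x f i (op i))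
    (hsrc : ∀ i < S, i ∈ N → src i < i ∧ ∀ G, f i G ↔ ¬ f (src i) G) (π : ℕ → Prop) (G : Γ)
    (hπ : ∀ i ∈ N, i < S → (π i ↔ ¬ ev x N op π (src i) G)) (i : ℕ) (hi : i < S) :
    ev x N op π i G ↔ f i G := by
  induction i using Nat.strong_induction_on with
  | _ i ih =>
    by_cases hN : i ∈ N
    · rw [ev_neg x N op π i G hN, hπ i hN hi, (hsrc i hi hN).2 G]
      exact not_congr (ih _ (hsrc i hi hN).1 ((hsrc i hi hN).1.trans hi))
    · rw [ev_gate x N op π i G hN]
      have h := hop i hi hN
      cases hc : op i with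
      | cst b =>
        rw [hc] at h
        exact (h G).symm
      | inp e =>
        rw [hc] at h
        exact (h G).symm
      | and j k =>
        rw [hc] at h
        obtain ⟨hj, hk, h⟩ := h
        show (tab x N op π G i j ∧ tab x N op π G i k) ↔ _
        rw [tab_eq x N op π G i j hj, tab_eq x N op π G i k hk, h G]
        exact and_congr (ih j hj (hj.trans hi)) (ih k hk (hk.trans hi))
      | or j k =>
        rw [hc] at h
        obtain ⟨hj, hk, h⟩ := h
        show (tab x N op π G i j ∨ tab x N op π G i k) ↔ _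
        rw [tab_eq x N op π G i j hj, tab_eq x N op π G i k hk, h G]
        exact or_congr (ih j hj (hj.trans hi)) (ih k hk (hk.trans hi))

end ev

/-- the rank of a NOT gate -/
def rk (N : Finset ℕ) (i : ℕ) : ℕ := (N.filter (fun j => j < i)).card

lemma rk_lt {N : Finset ℕ} {i : ℕ} (h : i ∈ N) : rk N i < N.card := by
  apply Finset.card_lt_card
  rw [Finset.ssubset_iff_of_subset (Finset.filter_subset _ _)]
  exact ⟨i, h, by simp⟩

lemma rk_lt_rk {N : Finset ℕ} {i j : ℕ} (h : i ∈ N) (hij : i < j) : rk N i < rk N j := by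
  apply Finset.card_lt_card
  rw [Finset.ssubset_iff_of_subset]
  · exact ⟨i, by simp [h, hij], by simp⟩
  · intro a ha
    rw [Finset.mem_filter] at ha ⊢
    exact ⟨ha.1, ha.2.trans hij⟩

lemma rk_inj {N : Finset ℕ} {i j : ℕ} (hi : i ∈ N) (hj : j ∈ N) (h : rk N i = rk N j) : i = j := by
  rcases lt_trichotomy i j with h1 | h1 | h1
  · have := rk_lt_rk hi h1
    omega
  · exact h1
  · have := rk_lt_rk hj h1
    omega

/-- the pattern number `p` -/
def pat (N : Finset ℕ) (p : ℕ) : ℕ → Prop := fun i => p.testBit (rk N i) = true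

/-- every pattern has a number -/
lemma exists_pat (N : Finset ℕ) (T : ℕ) (hT : N.card ≤ T) (P : ℕ → Prop) :
    ∃ p < 2 ^ T, ∀ i ∈ N, (pat N p i ↔ P i) := by
  classical
  refine ⟨Nat.ofBits (fun a : Fin T => decide (∃ i ∈ N, rk N i = a ∧ P i)),
    Nat.ofBits_lt_two_pow _, ?_⟩
  intro i hi
  unfold pat
  rw [Nat.testBit_ofBits_lt _ _ ((rk_lt hi).trans_le hT), decide_eq_true_iff]
  constructor
  · rintro ⟨j, hj, hjr, hjP⟩
    rw [← rk_inj hj hi hjr]
    exact hjP
  · intro h
    exact ⟨i, hi, rfl, h⟩

lemma pat_mod (N : Finset ℕ) (p i j : ℕ) (hj : j ∈ N) (hji : j < i) :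
    pat N (p % 2 ^ rk N i) j = pat N p j := by
  unfold pat
  rw [Nat.testBit_mod_two_pow]
  simp [rk_lt_rk hj hji]

lemma sum_two_pow (T : ℕ) : ∑ j ∈ Finset.range T, 2 ^ j = 2 ^ T - 1 := by
  induction T with
  | zero => simp
  | succ T ih =>
    rw [Finset.sum_range_succ, ih, pow_succ]
    have := Nat.one_le_two_pow (n := T)
    omega

/-- FLATTENING. -/
theorem flatten {Γ ι : Type} (x : ι → Γ → Prop) (S T : ℕ) (f : ℕ → Γ → Prop) (N : Finset ℕ)
    (hN : N.card ≤ T) (h : NotCirc x S f N) :
    ∃ (f' : ℕ → Γ → Prop) (lev : ℕ → ℕ) (A : Finset ℕ) (inp : ℕ → Finset ℕ) (pos : ℕ → ℕ),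
      Circ x (2 ^ T * (3 * S + 1)) f' lev A inp ∧ (∀ i, lev i ≤ 1) ∧
      (∀ m, 1 ≤ m → (reads lev A inp m).card ≤ 2 ^ T - 1) ∧
      ∀ i < S, pos i < 2 ^ T * (3 * S + 1) ∧ ∀ G, f' (pos i) G ↔ f i G := by
  classical
  -- only the NOT gates below `S` matter
  set N0 : Finset ℕ := N.filter (fun i => i < S) with hN0
  have hN0T : N0.card ≤ T := (Finset.card_le_card (Finset.filter_subset _ _)).trans hN
  have hmem : ∀ i < S, (i ∈ N0 ↔ i ∈ N) := by
    intro i hi
    rw [hN0, Finset.mem_filter]
    exact ⟨fun h => h.1, fun h => ⟨h, hi⟩⟩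
  have hltS : ∀ i ∈ N0, i < S := fun i hi => (Finset.mem_filter.mp hi).2
  -- the types of the gates
  have hop1 : ∀ i, ∃ o : Op ι, i < S → i ∉ N0 → Fits x f i o := by
    intro i
    by_cases hi : i < S ∧ i ∉ N0
    · have hi2 : i ∉ N := fun hh => hi.2 ((hmem i hi.1).mpr hh)
      rcases h.gate i hi.1 hi2 with ⟨b, hb⟩ | ⟨e, he⟩ | ⟨j, hj, k, hk, hjk⟩
      · exact ⟨Op.cst b, fun _ _ => hb⟩
      · exact ⟨Op.inp e, fun _ _ => he⟩
      · rcases hjk with hjk | hjk
        · exact ⟨Op.and j k, fun _ _ => ⟨hj, hk, hjk⟩⟩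
        · exact ⟨Op.or j k, fun _ _ => ⟨hj, hk, hjk⟩⟩
    · exact ⟨Op.cst True, fun h1 h2 => absurd ⟨h1, h2⟩ hi⟩
  choose op hop using hop1
  have hsrc1 : ∀ i, ∃ j, i < S → i ∈ N0 → j < i ∧ ∀ G, f i G ↔ ¬ f j G := by
    intro i
    by_cases hi : i < S ∧ i ∈ N0
    · obtain ⟨j, hj, hj2⟩ := h.neg i hi.1 ((hmem i hi.1).mp hi.2)
      exact ⟨j, fun _ _ => ⟨hj, hj2⟩⟩
    · exact ⟨0, fun h1 h2 => absurd ⟨h1, h2⟩ hi⟩
  choose src hsrc using hsrc1
  set M : ℕ := 2 ^ T with hM
  have hM1 : 1 ≤ M := Nat.one_le_two_pow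
  -- the monotone circuits
  set g : ℕ → ℕ → Γ → Prop := fun p i G => ev x N0 op (pat N0 p) i G with hg
  -- the pattern gates
  set P : ℕ → Γ → Prop := fun p G => ∀ i ∈ N0, (pat N0 p i ↔ ¬ g p (src i) G) with hP
  have hPf : ∀ p G, P p G → ∀ i < S, (g p i G ↔ f i G) := by
    intro p G hpG i hi
    exact ev_true (fun i h1 h2 => hop i h1 h2) (fun i h1 h2 => hsrc i h1 h2) (pat N0 p) G
      (fun i h1 h2 => hpG i h1) i hi
  have hPex : ∀ G, ∃ p < M, P p G := by
    intro G
    obtain ⟨p, hp, hp2⟩ := exists_pat N0 T hN0T (fun i => f i G)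
    refine ⟨p, hp, ?_⟩
    have key : ∀ i < S, (g p i G ↔ f i G) := by
      intro i
      induction i using Nat.strong_induction_on with
      | _ i ih =>
        intro hi
        by_cases hiN : i ∈ N0
        · show ev x N0 op (pat N0 p) i G ↔ _
          rw [ev_neg x N0 op (pat N0 p) i G hiN, hp2 i hiN]
        · show ev x N0 op (pat N0 p) i G ↔ _
          rw [ev_gate x N0 op (pat N0 p) i G hiN]
          have h1 := hop i hi hiN
          cases hc : op i with
          | cst b =>
            rw [hc] at h1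
            exact (h1 G).symm
          | inp e =>
            rw [hc] at h1
            exact (h1 G).symm
          | and j k =>
            rw [hc] at h1
            obtain ⟨hj, hk, h1⟩ := h1
            show (tab x N0 op (pat N0 p) G i j ∧ tab x N0 op (pat N0 p) G i k) ↔ _
            rw [tab_eq x N0 op (pat N0 p) G i j hj, tab_eq x N0 op (pat N0 p) G i k hk, h1 G]
            exact and_congr (ih j hj (hj.trans hi)) (ih k hk (hk.trans hi))
          | or j k =>
            rw [hc] at h1
            obtain ⟨hj, hk, h1⟩ := h1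
            show (tab x N0 op (pat N0 p) G i j ∨ tab x N0 op (pat N0 p) G i k) ↔ _
            rw [tab_eq x N0 op (pat N0 p) G i j hj, tab_eq x N0 op (pat N0 p) G i k hk, h1 G]
            exact or_congr (ih j hj (hj.trans hi)) (ih k hk (hk.trans hi))
    intro i hi
    have hiS := hltS i hi
    rw [hp2 i hi, (hsrc i hiS hi).2 G]
    exact (not_congr (key _ ((hsrc i hiS hi).1.trans hiS))).symm
  have hmod : ∀ p i G, i ∈ N0 → (g (p % 2 ^ rk N0 i) (src i) G ↔ g p (src i) G) := by
    intro p i G hi
    have hs := (hsrc i (hltS i hi) hi).1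
    show ev x N0 op _ (src i) G ↔ ev x N0 op _ (src i) G
    rw [ev_congr x N0 op (pat N0 (p % 2 ^ rk N0 i)) (pat N0 p) G (src i)
      (fun j hj hji => pat_mod N0 p i j hj (by omega))]
  -- the layout
  set B0 : ℕ := M * S with hB0
  set B1 : ℕ := B0 + M with hB1
  set E : ℕ → ℕ → Γ → Prop := fun p i G => P p G ∧ g p i G with hE
  set O : ℕ → ℕ → Γ → Prop := fun p i G => ∃ p' ≤ p, E p' i G with hO
  set f' : ℕ → Γ → Prop := fun a G =>
    if a < B0 then g (a / S) (a % S) G else
      if a < B1 then P (a - B0) G else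
        if (a - B1) % (2 * S) < S then E ((a - B1) / (2 * S)) ((a - B1) % (2 * S)) G
        else O ((a - B1) / (2 * S)) ((a - B1) % (2 * S) - S) G with hf'
  set lev : ℕ → ℕ := fun a => if a < B0 then 0 else 1 with hlev
  set A : Finset ℕ := Finset.Ico B0 B1 with hA
  set inp : ℕ → Finset ℕ := fun a =>
    N0.image (fun i => ((a - B0) % 2 ^ rk N0 i) * S + src i) with hinp
  set pos : ℕ → ℕ := fun i => B1 + (M - 1) * (2 * S) + S + i with hpos
  have hsize : M * (3 * S + 1) = B1 + M * (2 * S) := by
    rw [hB1, hB0]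
    ring
  have hpow : ∀ i ∈ N0, 2 ^ rk N0 i ≤ M := by
    intro i hi
    exact Nat.pow_le_pow_right (by norm_num) ((rk_lt hi).le.trans hN0T)
  -- values at the positions
  have hval0 : ∀ p < M, ∀ i < S, p * S + i < B0 ∧ ∀ G, (f' (p * S + i) G ↔ g p i G) := by
    intro p hp i hi
    have h1 : p * S + i < B0 := by
      rw [hB0]
      calc p * S + i < p * S + S := by omega
        _ = (p + 1) * S := by ring
        _ ≤ M * S := Nat.mul_le_mul_right _ hp
    refine ⟨h1, fun G => ?_⟩
    have h2 : (p * S + i) / S = p := by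
      rw [mul_comm, Nat.mul_add_div (by omega), Nat.div_eq_of_lt hi, add_zero]
    have h3 : (p * S + i) % S = i := by
      rw [mul_comm, Nat.mul_add_mod, Nat.mod_eq_of_lt hi]
    simp only [hf']
    rw [if_pos h1, h2, h3]
  have hvalP : ∀ p < M, ∀ G, (f' (B0 + p) G ↔ P p G) := by
    intro p hp G
    simp only [hf']
    rw [if_neg (by omega), if_pos (by omega)]
    rw [Nat.add_sub_cancel_left]
  have hidx : ∀ p c, c < 2 * S → (B1 + p * (2 * S) + c - B1) / (2 * S) = p ∧
      (B1 + p * (2 * S) + c - B1) % (2 * S) = c := by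
    intro p c hc
    have h1 : B1 + p * (2 * S) + c - B1 = (2 * S) * p + c := by
      rw [mul_comm (2 * S) p]
      omega
    rw [h1]
    constructor
    · rw [Nat.mul_add_div (by omega), Nat.div_eq_of_lt hc, add_zero]
    · rw [Nat.mul_add_mod, Nat.mod_eq_of_lt hc]
  have hvalE : ∀ p, ∀ i < S, ∀ G, (f' (B1 + p * (2 * S) + i) G ↔ E p i G) := by
    intro p i hi G
    obtain ⟨h1, h2⟩ := hidx p i (by omega)
    simp only [hf']
    rw [if_neg (by omega), if_neg (by omega), h1, h2, if_pos hi]
  have hvalO : ∀ p, ∀ i < S, ∀ G, (f' (B1 + p * (2 * S) + (S + i)) G ↔ O p i G) := by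
    intro p i hi G
    obtain ⟨h1, h2⟩ := hidx p (S + i) (by omega)
    simp only [hf']
    rw [if_neg (by omega), if_neg (by omega), h1, h2, if_neg (by omega)]
    rw [Nat.add_sub_cancel_left]
  refine ⟨f', lev, A, inp, pos, ⟨?_, ?_⟩, ?_, ?_, ?_⟩
  · -- ordinary gates
    intro a ha haA
    rw [hsize] at ha
    by_cases ha0 : a < B0
    · -- gates of the monotone circuits
      have hS : 0 < S := by
        rcases Nat.eq_zero_or_pos S with h0 | h0
        · rw [hB0, h0] at ha0
          omega
        · exact h0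
      have hi : a % S < S := Nat.mod_lt _ hS
      have hp : a / S < M := by
        rw [Nat.div_lt_iff_lt_mul hS]
        exact ha0
      have hdiv : a / S * S + a % S = a := by
        rw [mul_comm]
        exact Nat.div_add_mod a S
      have hfa : ∀ G, (f' a G ↔ g (a / S) (a % S) G) := by
        intro G
        simp only [hf']
        rw [if_pos ha0]
      by_cases hiN : a % S ∈ N0
      · left
        refine ⟨pat N0 (a / S) (a % S), fun G => ?_⟩
        rw [hfa G]
        show ev x N0 op (pat N0 (a / S)) (a % S) G ↔ _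
        rw [ev_neg x N0 op _ _ G hiN]
      · have h1 := hop (a % S) hi hiN
        cases hc : op (a % S) with
        | cst b =>
          left
          refine ⟨b, fun G => ?_⟩
          rw [hfa G]
          show ev x N0 op (pat N0 (a / S)) (a % S) G ↔ _
          rw [ev_gate x N0 op _ _ G hiN, hc]
          rfl
        | inp e =>
          right; left
          refine ⟨e, fun G => ?_⟩
          rw [hfa G]
          show ev x N0 op (pat N0 (a / S)) (a % S) G ↔ _
          rw [ev_gate x N0 op _ _ G hiN, hc]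
          rfl
        | and j k =>
          rw [hc] at h1
          obtain ⟨hj, hk, h1⟩ := h1
          right; right
          have hj0 := hval0 (a / S) hp j (hj.trans hi)
          have hk0 := hval0 (a / S) hp k (hk.trans hi)
          refine ⟨a / S * S + j, by omega, a / S * S + k, by omega, ?_, ?_, Or.inl fun G => ?_⟩
          · simp only [hlev]
            rw [if_pos hj0.1, if_pos ha0]
          · simp only [hlev]
            rw [if_pos hk0.1, if_pos ha0]
          · rw [hfa G, hj0.2 G, hk0.2 G]
            show ev x N0 op (pat N0 (a / S)) (a % S) G ↔ _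
            rw [ev_gate x N0 op _ _ G hiN, hc]
            show (tab x N0 op _ G (a % S) j ∧ tab x N0 op _ G (a % S) k) ↔ _
            rw [tab_eq x N0 op _ G _ j hj, tab_eq x N0 op _ G _ k hk]
        | or j k =>
          rw [hc] at h1
          obtain ⟨hj, hk, h1⟩ := h1
          right; right
          have hj0 := hval0 (a / S) hp j (hj.trans hi)
          have hk0 := hval0 (a / S) hp k (hk.trans hi)
          refine ⟨a / S * S + j, by omega, a / S * S + k, by omega, ?_, ?_, Or.inr fun G => ?_⟩
          · simp only [hlev]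
            rw [if_pos hj0.1, if_pos ha0]
          · simp only [hlev]
            rw [if_pos hk0.1, if_pos ha0]
          · rw [hfa G, hj0.2 G, hk0.2 G]
            show ev x N0 op (pat N0 (a / S)) (a % S) G ↔ _
            rw [ev_gate x N0 op _ _ G hiN, hc]
            show (tab x N0 op _ G (a % S) j ∨ tab x N0 op _ G (a % S) k) ↔ _
            rw [tab_eq x N0 op _ G _ j hj, tab_eq x N0 op _ G _ k hk]
    · -- gates above the pattern gates
      have ha1 : B1 ≤ a := by
        by_contra hcon
        exact haA (Finset.mem_Ico.mpr ⟨by omega, by omega⟩)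
      have hS : 0 < S := by
        rcases Nat.eq_zero_or_pos S with h0 | h0
        · rw [h0] at ha
          omega
        · exact h0
      obtain ⟨p, c, hpc, hc, hp⟩ : ∃ p c, a = B1 + p * (2 * S) + c ∧ c < 2 * S ∧ p < M := by
        refine ⟨(a - B1) / (2 * S), (a - B1) % (2 * S), ?_, Nat.mod_lt _ (by omega), ?_⟩
        · have := Nat.div_add_mod (a - B1) (2 * S)
          rw [mul_comm] at this
          omega
        · rw [Nat.div_lt_iff_lt_mul (by omega)]
          omega
      have hlev1 : lev a = 1 := by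
        simp only [hlev]
        rw [if_neg ha0]
      have hle1 : ∀ b, lev b ≤ lev a := by
        intro b
        rw [hlev1]
        simp only [hlev]
        split_ifs <;> omega
      right; right
      by_cases hcS : c < S
      · -- AND of a pattern gate and a monotone gate
        have h0 := hval0 p hp c hcS
        refine ⟨B0 + p, by omega, p * S + c, by omega, hle1 _, hle1 _, Or.inl fun G => ?_⟩
        rw [hpc, hvalE p c hcS G, hvalP p hp G, h0.2 G]
      · -- OR
        obtain ⟨i, hi⟩ : ∃ i, c = S + i := ⟨c - S, by omega⟩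
        have hiS : i < S := by omega
        rcases Nat.eq_zero_or_pos p with hp0 | hp0
        · refine ⟨B1 + 0 * (2 * S) + i, by rw [hpc, hp0]; omega, B1 + 0 * (2 * S) + i,
            by rw [hpc, hp0]; omega, hle1 _, hle1 _, Or.inl fun G => ?_⟩
          rw [hpc, hi, hvalO p i hiS G, hvalE 0 i hiS G, hp0]
          constructor
          · rintro ⟨p', hp', hE'⟩
            have : p' = 0 := by omega
            rw [this] at hE'
            exact ⟨hE', hE'⟩
          · intro hE'
            exact ⟨0, le_rfl, hE'.1⟩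
        · obtain ⟨p1, hp1⟩ : ∃ p1, p = p1 + 1 := ⟨p - 1, by omega⟩
          have hmul : p * (2 * S) = p1 * (2 * S) + 2 * S := by
            rw [hp1]
            ring
          refine ⟨B1 + p1 * (2 * S) + (S + i), by rw [hpc]; omega, B1 + p * (2 * S) + i,
            by rw [hpc]; omega, hle1 _, hle1 _, Or.inr fun G => ?_⟩
          rw [hpc, hi, hvalO p i hiS G, hvalO p1 i hiS G, hvalE p i hiS G, hp1]
          constructor
          · rintro ⟨p', hp', hE'⟩
            rcases Nat.lt_or_ge p' (p1 + 1) with h1 | h1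
            · exact Or.inl ⟨p', by omega, hE'⟩
            · have : p' = p1 + 1 := by omega
              rw [this] at hE'
              exact Or.inr hE'
          · rintro (⟨p', hp', hE'⟩ | hE')
            · exact ⟨p', by omega, hE'⟩
            · exact ⟨p1 + 1, le_rfl, hE'⟩
  · -- pattern gates
    intro a ha haA
    rw [hA, Finset.mem_Ico] at haA
    have hlev1 : lev a = 1 := by
      simp only [hlev]
      rw [if_neg (by omega)]
    have hsmall : ∀ i ∈ N0, ((a - B0) % 2 ^ rk N0 i) < M ∧ src i < S := by
      intro i hi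
      refine ⟨(Nat.mod_lt _ (by positivity)).trans_le (hpow i hi), ?_⟩
      exact (hsrc i (hltS i hi) hi).1.trans (hltS i hi)
    constructor
    · intro j hj
      rw [hinp, Finset.mem_image] at hj
      obtain ⟨i, hi, hij⟩ := hj
      have h1 := hval0 _ (hsmall i hi).1 _ (hsmall i hi).2
      rw [hij] at h1
      refine ⟨by omega, ?_⟩
      rw [hlev1]
      simp only [hlev]
      rw [if_pos h1.1]
      norm_num
    · intro G G' hGG
      have hfa : ∀ G, (f' a G ↔ P (a - B0) G) := by
        intro G
        have := hvalP (a - B0) (by omega) G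
        rw [show B0 + (a - B0) = a by omega] at this
        exact this
      rw [hfa G, hfa G']
      have hpt : ∀ i ∈ N0, (g (a - B0) (src i) G ↔ g (a - B0) (src i) G') := by
        intro i hi
        have h1 := hval0 _ (hsmall i hi).1 _ (hsmall i hi).2
        have h2 := hGG _ (Finset.mem_image.mpr ⟨i, hi, rfl⟩)
        rw [h1.2 G, h1.2 G', hmod _ i G hi, hmod _ i G' hi] at h2
        exact h2
      constructor
      · intro hPG i hi
        rw [hPG i hi]
        exact not_congr (hpt i hi)
      · intro hPG i hi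
        rw [hPG i hi]
        exact not_congr (hpt i hi).symm
  · intro i
    simp only [hlev]
    split_ifs <;> omega
  · -- the gates which are read
    intro m hm
    have hsub : reads lev A inp m ⊆ N0.biUnion (fun i =>
        (Finset.range (2 ^ rk N0 i)).image (fun q => q * S + src i)) := by
      intro b hb
      unfold reads at hb
      rw [Finset.mem_biUnion] at hb
      obtain ⟨a, ha, hb⟩ := hb
      rw [hinp, Finset.mem_image] at hb
      obtain ⟨i, hi, hib⟩ := hb
      rw [Finset.mem_biUnion]
      refine ⟨i, hi, ?_⟩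
      rw [Finset.mem_image]
      exact ⟨(a - B0) % 2 ^ rk N0 i, Finset.mem_range.mpr (Nat.mod_lt _ (by positivity)), hib⟩
    refine (Finset.card_le_card hsub).trans (Finset.card_biUnion_le.trans ?_)
    calc ∑ i ∈ N0, ((Finset.range (2 ^ rk N0 i)).image (fun q => q * S + src i)).card
        ≤ ∑ i ∈ N0, 2 ^ rk N0 i := by
          refine Finset.sum_le_sum fun i _ => ?_
          refine Finset.card_image_le.trans ?_
          rw [Finset.card_range]
      _ = ∑ j ∈ N0.image (rk N0), 2 ^ j := by
          rw [Finset.sum_image]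
          intro i hi j hj hij
          exact rk_inj hi hj hij
      _ ≤ ∑ j ∈ Finset.range T, 2 ^ j := by
          apply Finset.sum_le_sum_of_subset
          intro j hj
          rw [Finset.mem_image] at hj
          obtain ⟨i, hi, hij⟩ := hj
          rw [Finset.mem_range, ← hij]
          exact (rk_lt hi).trans_le hN0T
      _ = 2 ^ T - 1 := sum_two_pow T
  · intro i hi
    have hpp : pos i = B1 + (M - 1) * (2 * S) + (S + i) := by
      simp only [hpos]
      ring
    constructor
    · rw [hsize, hpp]
      have h1 : M * (2 * S) = (M - 1) * (2 * S) + 2 * S := by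
        obtain ⟨m1, hm1⟩ : ∃ m1, M = m1 + 1 := ⟨M - 1, by omega⟩
        rw [hm1]
        rw [Nat.add_sub_cancel]
        ring
      omega
    · intro G
      rw [hpp, hvalO (M - 1) i hi G]
      constructor
      · rintro ⟨p, hp, hPp, hgp⟩
        exact (hPf p G hPp i hi).mp hgp
      · intro hfi
        obtain ⟨p, hp, hPp⟩ := hPex G
        exact ⟨p, by omega, hPp, (hPf p G hPp i hi).mpr hfi⟩

end Pool.Agent.Helper6.NegF
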