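import Pool.Agent.Helper14.NegCount

/-! The end of the argument, approximation version: from hard distributions to the problem to tell
graphs with a `K`-clique from graphs without a clique with `w₀ + (K - s)` vertices. -/

set_option autoImplicit false

namespace Pool.Agent.Helper6.NegGap

open Finset Pool.Agent.Helper71.Neg Pool.Agent.Helper14.NegEnd Pool.Agent.Helper14.NegCount

theorem clique_part {s n c w : ℕ} {U : Type} [DecidableEq U] [Nonempty (Fin s × U)]
    (φ : (Fin s × U) ⊕ Fin c ↪ Fin n)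
    (G : Finset (Pr s U)) (h : ¬ ((gr c G).map φ).CliqueFree (w + c)) :
    ∃ z : Fin w → Fin s × U, ∀ (a b : Fin w), a < b → ∃ h' : (z a).1 < (z b).1,
      (⟨(z a, z b), h'⟩ : Pr s U) ∈ G := by
  classical
  obtain ⟨v₀⟩ := (inferInstance : Nonempty (Fin s × U))
  have : Nonempty ((Fin s × U) ⊕ Fin c) := ⟨.inl v₀⟩
  rw [SimpleGraph.cliqueFree_map_iff] at h
  unfold SimpleGraph.CliqueFree at h
  push Not at h
  obtain ⟨t, ht⟩ := h
  rw [SimpleGraph.isNClique_iff] at ht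
  obtain ⟨hcl, hcard⟩ := ht
  have h2 : t.toRight.card ≤ c := by
    have := card_le_univ t.toRight
    simpa using this
  have h1 : w ≤ t.toLeft.card := by
    have := Finset.card_toLeft_add_card_toRight (u := t)
    omega
  have hinj : Set.InjOn (fun p : Fin s × U => p.1) (t.toLeft : Set (Fin s × U)) := by
    intro p hp q hq hpq
    by_contra hne
    rw [mem_coe, mem_toLeft] at hp hq
    have hadj : (gr c G).Adj (.inl p) (.inl q) := hcl (mem_coe.mpr hp) (mem_coe.mpr hq)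
      (fun h => hne (Sum.inl_injective h))
    simp only at hpq
    rcases hadj with ⟨h, -⟩ | ⟨h, -⟩
    · exact absurd hpq (ne_of_lt h)
    · exact absurd hpq.symm (ne_of_lt h)
  have hJ0 : w ≤ (t.toLeft.image (fun p => p.1)).card := by
    rw [card_image_of_injOn hinj]
    exact h1
  obtain ⟨J, hJsub, hJ⟩ := Finset.exists_subset_card_eq hJ0
  have hex : ∀ j : Fin w, ∃ p : Fin s × U, Sum.inl p ∈ t ∧ p.1 = J.orderEmbOfFin hJ j := by
    intro j
    have hm := hJsub (Finset.orderEmbOfFin_mem J hJ j)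
    obtain ⟨p, hp, hpe⟩ := mem_image.mp hm
    exact ⟨p, mem_toLeft.mp hp, hpe⟩
  choose z hz1 hz2 using hex
  refine ⟨z, fun a b hab => ?_⟩
  have hlt : (z a).1 < (z b).1 := by
    rw [hz2, hz2]
    exact (Finset.orderEmbOfFin _ hJ).strictMono hab
  refine ⟨hlt, ?_⟩
  have hadj : (gr c G).Adj (.inl (z a)) (.inl (z b)) :=
    hcl (mem_coe.mpr (hz1 a)) (mem_coe.mpr (hz1 b)) (fun h => by
      have := Sum.inl_injective h
      exact absurd (congrArg Prod.fst this) (ne_of_lt hlt))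
  rcases hadj with ⟨h, hG⟩ | ⟨h, -⟩
  · exact hG
  · exact absurd h (not_lt.mpr hlt.le)

/-- From hard distributions to the approximation of the clique number. -/
theorem end_gap {s k t S : ℕ} {r : ℕ → ℕ} {err : ℝ} {U Ω : Type} [Fintype U] [DecidableEq U]
    [Fintype Ω] [Nonempty Ω] {ng ps : Ω → Finset (Pr s U)} (hk : 1 ≤ k) (hs2 : 2 ≤ s)
    (D : HardDist s k t S r err U Ω ng ps)
    (n K w₀ : ℕ) (hs : s ≤ K) (hn : s * Fintype.card U + (K - s) ≤ n) (δ : ℝ)
    (Ω' : Type) [Fintype Ω'] (w : Ω' → ℝ) (f : Ω' → ℕ → SimpleGraph (Fin n) → Prop)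
    (lev : Ω' → ℕ → ℕ) (A : Ω' → Finset ℕ) (inp : Ω' → ℕ → Finset ℕ) (out : Ω' → ℕ)
    (hw : ∀ ω, 0 ≤ w ω) (hw1 : ∑ ω, w ω = 1)
    (hC : ∀ ω, Circ (fun (e : Fin n × Fin n) (G : SimpleGraph (Fin n)) => G.Adj e.1 e.2) S
      (f ω) (lev ω) (A ω) (inp ω))
    (hlev : ∀ ω, ∀ i < S, lev ω i ≤ t)
    (hr : ∀ ω m, 1 ≤ m → (reads (lev ω) (A ω) (inp ω) m).card ≤ r m)
    (hout : ∀ ω, out ω < S)
    (hpos : ∀ G : SimpleGraph (Fin n), ¬ G.CliqueFree K → 1 / 2 + δ ≤
      ∑ ω, w ω * @ite ℝ (f ω (out ω) G) (Classical.dec _) 1 0)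
    (hneg : ∀ G : SimpleGraph (Fin n), G.CliqueFree (w₀ + (K - s)) → 1 / 2 + δ ≤
      ∑ ω, w ω * @ite ℝ (¬ f ω (out ω) G) (Classical.dec _) 1 0) :
    2 * δ ≤ err + ((s * Fintype.card U : ℕ) : ℝ) ^ w₀ *
      (1 - 1 / (k : ℝ)) ^ (w₀ * (w₀ - 1) / 2) := by
  classical
  obtain ⟨ω₀⟩ := (inferInstance : Nonempty Ω)
  obtain ⟨y₀, -⟩ := D.clique ω₀
  have hspos : 0 < s := by omega
  have hcard : Fintype.card ((Fin s × U) ⊕ Fin (K - s)) ≤ Fintype.card (Fin n) := by
    rw [Fintype.card_sum, Fintype.card_prod, Fintype.card_fin, Fintype.card_fin, Fintype.card_fin]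
    exact hn
  obtain ⟨φ⟩ := Function.Embedding.nonempty_of_card_le hcard
  have hne0 : Nonempty (Fin s × U) := ⟨(⟨0, hspos⟩, y₀ ⟨0, hspos⟩)⟩
  have : Nonempty ((Fin s × U) ⊕ Fin (K - s)) := ⟨.inl (⟨0, hspos⟩, y₀ ⟨0, hspos⟩)⟩
  let H : Finset (Pr s U) → SimpleGraph (Fin n) := fun G => (gr (K - s) G).map φ
  have hHps : ∀ ω, ¬ (H (ps ω)).CliqueFree K := by
    intro ω
    have h1 := (clique_iff (c := K - s) (ps ω)).mpr (D.clique ω)
    rw [show s + (K - s) = K by omega] at h1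
    show ¬ ((gr (K - s) (ps ω)).map φ).CliqueFree K
    rw [SimpleGraph.cliqueFree_map_iff]
    exact h1
  have hN : (0 : ℝ) < Fintype.card Ω := by exact_mod_cast Fintype.card_pos
  set N : ℝ := (Fintype.card Ω : ℝ) with hNdef
  set Bad : Ω → Prop := fun ω => ∃ z : Fin w₀ → Fin s × U, ∀ (a b : Fin w₀), a < b →
    ∃ h' : (z a).1 < (z b).1, (⟨(z a, z b), h'⟩ : Pr s U) ∈ ng ω with hBad
  set c0 : ℝ := (cnt Bad : ℝ) with hc0
  have hHng : ∀ ω, ¬ Bad ω → (H (ng ω)).CliqueFree (w₀ + (K - s)) := by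
    intro ω hω
    by_contra hcon
    exact hω (clique_part φ (ng ω) hcon)
  -- for each circuit
  have hcirc : ∀ ω' : Ω', (∑ ω : Ω, (@ite ℝ (¬ f ω' (out ω') (H (ng ω))) (Classical.dec _) 1 0 +
      @ite ℝ (f ω' (out ω') (H (ps ω))) (Classical.dec _) 1 0)) ≤ (1 + err) * N := by
    intro ω'
    have hh := D.hard (fun i G => f ω' i (H G)) (lev ω') (A ω') (inp ω') (out ω')
      (comp_circ φ (hC ω')) (hlev ω') (hr ω') (hout ω')
    have e1 : (cnt (fun ω => f ω' (out ω') (H (ng ω))) : ℝ) +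
        (cnt (fun ω => ¬ f ω' (out ω') (H (ng ω))) : ℝ) = N := by
      rw [hNdef]
      exact_mod_cast cnt_add_not (fun ω => f ω' (out ω') (H (ng ω)))
    have e2 : (cnt (fun ω => f ω' (out ω') (H (ps ω))) : ℝ) +
        (cnt (fun ω => ¬ f ω' (out ω') (H (ps ω))) : ℝ) = N := by
      rw [hNdef]
      exact_mod_cast cnt_add_not (fun ω => f ω' (out ω') (H (ps ω)))
    have e3 : (∑ ω : Ω, (@ite ℝ (¬ f ω' (out ω') (H (ng ω))) (Classical.dec _) 1 0)) ≤
        (cnt (fun ω => ¬ f ω' (out ω') (H (ng ω))) : ℝ) := by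
      unfold cnt
      rw [Finset.card_filter]
      push_cast
      apply sum_le_sum
      intro ω _
      by_cases h1 : f ω' (out ω') (H (ng ω))
      · simp [h1]
      · simp [h1]
    have e4 : (∑ ω : Ω, (@ite ℝ (f ω' (out ω') (H (ps ω))) (Classical.dec _) 1 0)) ≤
        (cnt (fun ω => f ω' (out ω') (H (ps ω))) : ℝ) := by
      unfold cnt
      rw [Finset.card_filter]
      push_cast
      apply sum_le_sum
      intro ω _
      by_cases h1 : f ω' (out ω') (H (ps ω))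
      · simp [h1]
      · simp [h1]
    rw [sum_add_distrib]
    linarith
  have hle1 : 1 / 2 + δ ≤ 1 := by
    have h1 : ∑ ω', w ω' * @ite ℝ (f ω' (out ω') (H (ps ω₀))) (Classical.dec _) 1 0 ≤
        ∑ ω', w ω' := by
      apply sum_le_sum
      intro ω' _
      by_cases h2 : f ω' (out ω') (H (ps ω₀))
      · rw [if_pos h2, mul_one]
      · rw [if_neg h2, mul_zero]
        exact hw ω'
    rw [hw1] at h1
    exact (hpos _ (hHps ω₀)).trans h1
  -- for each instance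
  have hG : ∀ ω : Ω, 1 + 2 * δ - @ite ℝ (Bad ω) (Classical.dec _) 1 0 ≤ ∑ ω' : Ω', w ω' *
      (@ite ℝ (¬ f ω' (out ω') (H (ng ω))) (Classical.dec _) 1 0 +
      @ite ℝ (f ω' (out ω') (H (ps ω))) (Classical.dec _) 1 0) := by
    intro ω
    have a2 := hpos (H (ps ω)) (hHps ω)
    simp only [mul_add]
    rw [sum_add_distrib]
    by_cases hb : Bad ω
    · rw [if_pos hb]
      have a1 : 0 ≤ ∑ ω' : Ω', w ω' *
          @ite ℝ (¬ f ω' (out ω') (H (ng ω))) (Classical.dec _) 1 0 := by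
        apply sum_nonneg
        intro ω' _
        apply mul_nonneg (hw ω')
        split_ifs <;> norm_num
      linarith
    · rw [if_neg hb]
      have a1 := hneg (H (ng ω)) (hHng ω hb)
      linarith
  have htot : (1 + 2 * δ) * N - c0 ≤ (1 + err) * N := by
    have b1 : (1 + 2 * δ) * N - c0 =
        ∑ ω : Ω, (1 + 2 * δ - @ite ℝ (Bad ω) (Classical.dec _) 1 0) := by
      rw [sum_sub_distrib, sum_const, card_univ, nsmul_eq_mul, mul_comm, hc0]
      unfold cnt
      rw [Finset.card_filter]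
      push_cast
      rw [hNdef]
      congr 1
      apply sum_congr rfl
      intro ω _
      by_cases hb : Bad ω
      · rw [if_pos hb, if_pos hb]
      · rw [if_neg hb, if_neg hb]
    rw [b1]
    refine (sum_le_sum (fun ω _ => hG ω)).trans ?_
    rw [sum_comm]
    have b2 : ∀ ω' : Ω', ∑ ω : Ω, w ω' *
        (@ite ℝ (¬ f ω' (out ω') (H (ng ω))) (Classical.dec _) 1 0 +
        @ite ℝ (f ω' (out ω') (H (ps ω))) (Classical.dec _) 1 0) ≤
        w ω' * ((1 + err) * N) := by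
      intro ω'
      rw [← mul_sum]
      exact mul_le_mul_of_nonneg_left (hcirc ω') (hw ω')
    refine (sum_le_sum (fun ω' _ => b2 ω')).trans (le_of_eq ?_)
    rw [← sum_mul, hw1, one_mul]
  have hc := ng_small hk D w₀
  rw [← hNdef] at hc
  have hfin : (2 * δ) * N ≤ (err + ((s * Fintype.card U : ℕ) : ℝ) ^ w₀ *
      (1 - 1 / (k : ℝ)) ^ (w₀ * (w₀ - 1) / 2)) * N := by
    have h9 : c0 ≤ ((s * Fintype.card U : ℕ) : ℝ) ^ w₀ *
      (1 - 1 / (k : ℝ)) ^ (w₀ * (w₀ - 1) / 2) * N := hc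
    linarith
  exact le_of_mul_le_mul_right hfin hN

end Pool.Agent.Helper6.NegGap
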