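import Pool.Agent.Helper6.NegGap
import Pool.Agent.Helper24.Neg.Final

/-! Numerics of the approximation version. -/

set_option autoImplicit false

namespace Pool.Agent.Helper6.NegGapMain

open Finset Pool.Agent.Helper71.Neg

/-- the parameters -/
lemma params (δ : ℝ) (hδ : 0 < δ) (hδ2 : δ ≤ 1 / 2) : ∃ B : ℝ, 1 ≤ B ∧ ∀ S : ℕ, 2 ≤ S →
    ∃ l k : ℕ, 2 ≤ l ∧ 1 ≤ k ∧ (l : ℝ) ≤ B * Real.log S ∧ (k : ℝ) ≤ B * Real.log S ^ 2 ∧
      (l ^ 2 : ℝ) / k + S * ((l ^ 2 : ℝ) / k) ^ (l + 1) ≤ δ / 4 ∧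
      S * ((l : ℝ) / (2 * l : ℕ)) ^ (l + 1) ≤ δ / 8 := by
  have hlog2 : (0 : ℝ) < Real.log 2 := Real.log_pos (by norm_num)
  have hl8 : 0 < Real.log (8 / δ) := by
    apply Real.log_pos
    rw [lt_div_iff₀ hδ]
    linarith
  set A : ℝ := (1 + Real.log (8 / δ) / Real.log 2) / Real.log 2 with hA
  have hA0 : 0 < A := by positivity
  set A' : ℝ := A + 2 / Real.log 2 with hA'
  have hA'0 : 0 < A' := by positivity
  refine ⟨max 1 (max A' (17 * A' ^ 2 / δ)), le_max_left _ _, fun S hS => ?_⟩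
  have hS0 : (0 : ℝ) < S := by
    have : 0 < S := by omega
    exact_mod_cast this
  have hL : Real.log 2 ≤ Real.log S := by
    apply Real.log_le_log (by norm_num)
    exact_mod_cast hS
  set L : ℝ := Real.log S with hLdef
  have hL0 : 0 < L := hlog2.trans_le hL
  set l : ℕ := ⌈A * L⌉₊ + 1 with hl
  have hlge : A * L ≤ l := by
    have := Nat.le_ceil (A * L)
    rw [hl]
    push_cast
    linarith
  have hlle : (l : ℝ) ≤ A' * L := by
    have h1 : (⌈A * L⌉₊ : ℝ) < A * L + 1 := Nat.ceil_lt_add_one (by positivity)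
    have h2 : 2 ≤ 2 / Real.log 2 * L := by
      rw [div_mul_eq_mul_div, le_div_iff₀ hlog2]
      nlinarith
    rw [hl, hA']
    push_cast
    nlinarith
  have hl2 : 2 ≤ l := by
    have : 0 < ⌈A * L⌉₊ := Nat.ceil_pos.mpr (by positivity)
    omega
  have hl0 : (0 : ℝ) < l := by
    have : 0 < l := by omega
    exact_mod_cast this
  -- powers of two
  have hpow : (S : ℝ) * (1 / 2) ^ (l + 1) ≤ δ / 8 := by
    have h1 : L + Real.log (8 / δ) ≤ (l + 1 : ℕ) * Real.log 2 := by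
      have h2 : A * L * Real.log 2 = L + Real.log (8 / δ) / Real.log 2 * L := by
        rw [hA]
        field_simp
      have h3 : Real.log (8 / δ) ≤ Real.log (8 / δ) / Real.log 2 * L := by
        rw [div_mul_eq_mul_div, le_div_iff₀ hlog2]
        exact mul_le_mul_of_nonneg_left hL hl8.le
      push_cast
      nlinarith
    have h4 : (S : ℝ) * (8 / δ) ≤ 2 ^ (l + 1) := by
      have h5 : Real.log ((S : ℝ) * (8 / δ)) ≤ Real.log (2 ^ (l + 1)) := by
        rw [Real.log_mul hS0.ne' (by positivity), Real.log_pow]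
        exact h1
      exact (Real.log_le_log_iff (by positivity) (by positivity)).mp h5
    rw [div_pow, one_pow, mul_one_div, div_le_iff₀ (by positivity)]
    have h6 : (S : ℝ) = (S * (8 / δ)) * (δ / 8) := by
      field_simp
    rw [h6, mul_comm (δ / 8)]
    exact mul_le_mul_of_nonneg_right h4 (by positivity)
  set k : ℕ := ⌈16 * (l : ℝ) ^ 2 / δ⌉₊ with hk
  have hkge : 16 * (l : ℝ) ^ 2 / δ ≤ k := Nat.le_ceil _
  have hk0 : (0 : ℝ) < k := lt_of_lt_of_le (by positivity) hkge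
  have hk1 : 1 ≤ k := by
    have : 0 < k := by exact_mod_cast hk0
    omega
  have hkle : (k : ℝ) ≤ 17 * A' ^ 2 / δ * L ^ 2 := by
    have h1 : (k : ℝ) < 16 * (l : ℝ) ^ 2 / δ + 1 := Nat.ceil_lt_add_one (by positivity)
    have h2 : (1 : ℝ) ≤ (l : ℝ) ^ 2 / δ := by
      rw [le_div_iff₀ hδ]
      have : (2 : ℝ) ≤ l := by exact_mod_cast hl2
      nlinarith
    have h3 : (l : ℝ) ^ 2 ≤ (A' * L) ^ 2 := by
      apply pow_le_pow_left₀ hl0.le hlle
    calc (k : ℝ) ≤ 16 * (l : ℝ) ^ 2 / δ + (l : ℝ) ^ 2 / δ := by linarith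
      _ = 17 * (l : ℝ) ^ 2 / δ := by ring
      _ ≤ 17 * (A' * L) ^ 2 / δ := by gcongr
      _ = 17 * A' ^ 2 / δ * L ^ 2 := by ring
  have hratio : (l ^ 2 : ℝ) / k ≤ δ / 16 := by
    rw [div_le_iff₀ hk0]
    have h1 := mul_le_mul_of_nonneg_left hkge (by positivity : (0 : ℝ) ≤ δ / 16)
    have h2 : δ / 16 * (16 * (l : ℝ) ^ 2 / δ) = (l : ℝ) ^ 2 := by
      field_simp
    linarith
  have hratio0 : (0 : ℝ) ≤ (l ^ 2 : ℝ) / k := by positivity
  refine ⟨l, k, hl2, hk1, ?_, ?_, ?_, ?_⟩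
  · exact hlle.trans (mul_le_mul_of_nonneg_right
      ((le_max_left _ _).trans (le_max_right _ _)) hL0.le)
  · exact hkle.trans (mul_le_mul_of_nonneg_right
      ((le_max_right _ _).trans (le_max_right _ _)) (by positivity))
  · have h1 : ((l ^ 2 : ℝ) / k) ^ (l + 1) ≤ (1 / 2) ^ (l + 1) := by
      apply pow_le_pow_left₀ hratio0
      linarith
    have h2 : (S : ℝ) * ((l ^ 2 : ℝ) / k) ^ (l + 1) ≤ δ / 8 :=
      (mul_le_mul_of_nonneg_left h1 hS0.le).trans hpow
    linarith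
  · have h1 : (l : ℝ) / (2 * l : ℕ) = 1 / 2 := by
      push_cast
      field_simp
    rw [h1]
    exact hpow

/-- the probability of a clique with `w` vertices in the negative instance -/
lemma small_prob (δ : ℝ) (hδ : 0 < δ) (n N k w : ℕ) (hn : 2 ≤ n) (hN : N ≤ n) (hk : 1 ≤ k)
    (hw1 : 4 * (k : ℝ) * Real.log n + 1 ≤ w) (hw2 : 8 / δ ≤ (w : ℝ)) :
    (N : ℝ) ^ w * (1 - 1 / (k : ℝ)) ^ (w * (w - 1) / 2) ≤ δ / 8 := by
  have hk0 : (0 : ℝ) < k := by exact_mod_cast hk
  have hn0 : (0 : ℝ) < n := by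
    have : 0 < n := by omega
    exact_mod_cast this
  have hlogn : Real.log 2 ≤ Real.log n := by
    apply Real.log_le_log (by norm_num)
    exact_mod_cast hn
  have hlog2 : (0 : ℝ) < Real.log 2 := Real.log_pos (by norm_num)
  have hw0 : (1 : ℝ) ≤ w := by
    have : (0 : ℝ) ≤ 4 * (k : ℝ) * Real.log n := by positivity
    linarith
  have hw0' : 1 ≤ w := by exact_mod_cast hw0
  have h1 : (1 - 1 / (k : ℝ)) ^ (w * (w - 1) / 2) ≤ Real.exp (-(1 / (k : ℝ))) ^ (w * (w - 1) / 2) := by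
    apply pow_le_pow_left₀
    · have : 1 / (k : ℝ) ≤ 1 := by
        rw [div_le_one hk0]
        exact_mod_cast hk
      linarith
    · have := Real.add_one_le_exp (-(1 / (k : ℝ)))
      linarith
  have hdiv : ((w * (w - 1) / 2 : ℕ) : ℝ) = (w : ℝ) * (w - 1) / 2 := by
    have h2 : 2 ∣ w * (w - 1) := (Nat.even_mul_pred_self w).two_dvd
    rw [Nat.cast_div h2 (by norm_num)]
    push_cast [Nat.cast_sub hw0']
    ring
  have h2 : (N : ℝ) ^ w ≤ Real.exp (w * Real.log n) := by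
    rw [mul_comm, Real.exp_mul, Real.exp_log hn0, Real.rpow_natCast]
    exact pow_le_pow_left₀ (by positivity) (by exact_mod_cast hN) _
  calc (N : ℝ) ^ w * (1 - 1 / (k : ℝ)) ^ (w * (w - 1) / 2)
      ≤ Real.exp (w * Real.log n) * Real.exp (-(1 / (k : ℝ))) ^ (w * (w - 1) / 2) := by
        apply mul_le_mul h2 h1 _ (Real.exp_pos _).le
        apply pow_nonneg
        have : 1 / (k : ℝ) ≤ 1 := by
          rw [div_le_one hk0]
          exact_mod_cast hk
        linarith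
    _ = Real.exp (w * Real.log n - (w : ℝ) * (w - 1) / 2 / k) := by
        rw [← Real.exp_nat_mul, ← Real.exp_add, hdiv]
        congr 1
        ring
    _ ≤ Real.exp (-(w * Real.log 2)) := by
        apply Real.exp_le_exp.mpr
        have h3 : 4 * (k : ℝ) * Real.log n ≤ (w : ℝ) - 1 := by linarith
        have h4 : 2 * Real.log n ≤ ((w : ℝ) - 1) / 2 / k := by
          rw [le_div_iff₀ hk0]
          linarith
        have h5 : (w : ℝ) * (2 * Real.log n) ≤ w * (((w : ℝ) - 1) / 2 / k) :=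
          mul_le_mul_of_nonneg_left h4 (by positivity)
        have h6 : (w : ℝ) * (w - 1) / 2 / k = w * (((w : ℝ) - 1) / 2 / k) := by ring
        rw [h6]
        have h7 : (w : ℝ) * Real.log 2 ≤ w * Real.log n :=
          mul_le_mul_of_nonneg_left hlogn (by positivity)
        linarith
    _ ≤ δ / 8 := by
        rw [Real.exp_neg, mul_comm, Real.exp_mul, Real.exp_log (by norm_num), Real.rpow_natCast]
        rw [inv_le_comm₀ (by positivity) (by positivity)]
        have h8 : (w : ℝ) ≤ 2 ^ w := by exact_mod_cast (Nat.lt_two_pow_self (n := w)).le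
        have h9 : (δ / 8)⁻¹ = 8 / δ := by
          rw [inv_div]
        rw [h9]
        exact hw2.trans h8

/-- FINAL, approximation version. -/
theorem neg_gap (hE : Pool.Agent.Helper24.Neg.ExistsHard2) (δ : ℝ) (hδ : 0 < δ) :
    ∃ C : ℝ, 0 < C ∧
    ∀ (n K s w₀ t S : ℕ) (r : ℕ → ℕ), 2 ≤ n → n ≤ S →
      C * Real.log S ^ 2 * Real.log n ≤ w₀ → w₀ ≤ s → s ≤ K → K ≤ n →
      ∀ (Ω' : Type) [Fintype Ω'] (w : Ω' → ℝ) (f : Ω' → ℕ → SimpleGraph (Fin n) → Prop)
        (lev : Ω' → ℕ → ℕ) (A : Ω' → Finset ℕ) (inp : Ω' → ℕ → Finset ℕ) (out : Ω' → ℕ),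
        (∀ ω, 0 ≤ w ω) → ∑ ω, w ω = 1 →
        (∀ ω, Circ (fun (e : Fin n × Fin n) (G : SimpleGraph (Fin n)) => G.Adj e.1 e.2) S
          (f ω) (lev ω) (A ω) (inp ω)) →
        (∀ ω, ∀ i < S, lev ω i ≤ t) →
        (∀ ω m, 1 ≤ m → (reads (lev ω) (A ω) (inp ω) m).card ≤ r m) →
        (∀ ω, out ω < S) →
        (∀ G : SimpleGraph (Fin n), ¬ G.CliqueFree K → 1 / 2 + δ ≤
          ∑ ω, w ω * @ite ℝ (f ω (out ω) G) (Classical.dec _) 1 0) →
        (∀ G : SimpleGraph (Fin n), G.CliqueFree (w₀ + (K - s)) → 1 / 2 + δ ≤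
          ∑ ω, w ω * @ite ℝ (¬ f ω (out ω) G) (Classical.dec _) 1 0) →
        ((n : ℝ) - K) ^ 2 ≤ (C * s * Real.log S) ^ 2 *
          ((s : ℝ) ^ 2 + ∏ m ∈ range t, (1 + (r (m + 1) : ℝ))) := by
  rcases le_or_gt δ (1 / 2) with hδ1 | hδ1
  swap
  · refine ⟨1, one_pos, ?_⟩
    intro n K s w₀ t S r hn hnS hw0 hws hsK hKn Ω' _ w f lev A inp out hw hw1 hCirc hlev hr hout
      hpos hneg
    exfalso
    have htop : ¬ (⊤ : SimpleGraph (Fin n)).CliqueFree K := by
      intro h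
      have hK : K ≤ (Finset.univ : Finset (Fin n)).card := by
        rw [Finset.card_univ, Fintype.card_fin]
        exact hKn
      obtain ⟨X, -, hX⟩ := Finset.exists_subset_card_eq hK
      refine h X ⟨?_, hX⟩
      intro a _ b _ hab
      exact hab
    have h1 := hpos ⊤ htop
    have h2 : ∑ ω, w ω * @ite ℝ (f ω (out ω) ⊤) (Classical.dec _) 1 0 ≤ ∑ ω, w ω := by
      apply Finset.sum_le_sum
      intro ω _
      split_ifs
      · simp
      · simpa using hw ω
    linarith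
  obtain ⟨B, hB1, hB⟩ := params δ hδ hδ1
  have hlog2 : (0 : ℝ) < Real.log 2 := Real.log_pos (by norm_num)
  set c2 : ℝ := Real.log 2 ^ 2 * Real.log 2 with hc2
  have hc20 : 0 < c2 := by positivity
  set D : ℝ := 4 + 16 / (3 * δ) with hD
  have hD4 : 4 ≤ D := by
    rw [hD]
    have : 0 < 16 / (3 * δ) := by positivity
    linarith
  set C : ℝ := (4 * B + (1 + 8 / δ) / c2) + 2 * B * D with hC
  have hC1 : 4 * B + (1 + 8 / δ) / c2 ≤ C := by
    rw [hC]
    have : 0 ≤ 2 * B * D := by positivity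
    linarith
  have hC2 : 2 * B * D ≤ C := by
    rw [hC]
    have : 0 ≤ 4 * B + (1 + 8 / δ) / c2 := by positivity
    linarith
  have hC0 : 0 < C := by
    have : 0 < 2 * B * D := by positivity
    linarith
  refine ⟨C, hC0, ?_⟩
  intro n K s w₀ t S r hn hnS hw0 hws hsK hKn Ω' _ w f lev A inp out hw hw1 hCirc hlev hr hout
    hpos hneg
  have hS2 : 2 ≤ S := hn.trans hnS
  obtain ⟨l, k, hl2, hk1, hlB, hkB, hτ, hζ⟩ := hB S hS2
  set L : ℝ := Real.log S with hL
  set P : ℝ := ∏ m ∈ range t, (1 + (r (m + 1) : ℝ)) with hP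
  have hP1 : 1 ≤ P := Pool.Agent.Helper24.Neg.one_le_P t r
  have hL2 : Real.log 2 ≤ L := by
    apply Real.log_le_log (by norm_num)
    exact_mod_cast hS2
  have hn2 : Real.log 2 ≤ Real.log n := by
    apply Real.log_le_log (by norm_num)
    exact_mod_cast hn
  have hL0 : 0 < L := hlog2.trans_le hL2
  have hn0 : 0 < Real.log n := hlog2.trans_le hn2
  have hprod : c2 ≤ L ^ 2 * Real.log n := by
    rw [hc2]
    apply mul_le_mul (pow_le_pow_left₀ hlog2.le hL2 2) hn2 hlog2.le (by positivity)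
  -- conditions on `w₀`
  have hw0a : 4 * B * (L ^ 2 * Real.log n) + (1 + 8 / δ) ≤ w₀ := by
    have h1 : (4 * B + (1 + 8 / δ) / c2) * (L ^ 2 * Real.log n) ≤ w₀ := by
      calc (4 * B + (1 + 8 / δ) / c2) * (L ^ 2 * Real.log n)
          ≤ C * (L ^ 2 * Real.log n) := by gcongr
        _ = C * L ^ 2 * Real.log n := by ring
        _ ≤ w₀ := hw0
    have h2 : 1 + 8 / δ ≤ (1 + 8 / δ) / c2 * (L ^ 2 * Real.log n) := by
      rw [div_mul_eq_mul_div, le_div_iff₀ hc20]
      exact mul_le_mul_of_nonneg_left hprod (by positivity)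
    have h3 := add_mul (4 * B) ((1 + 8 / δ) / c2) (L ^ 2 * Real.log n)
    linarith
  have h8δ : 0 < 8 / δ := by positivity
  have hLn0 : 0 < L ^ 2 * Real.log n := by positivity
  have hw0b : 4 * (k : ℝ) * Real.log n + 1 ≤ w₀ := by
    have h1 : 4 * (k : ℝ) * Real.log n ≤ 4 * (B * L ^ 2) * Real.log n := by gcongr
    have h2 : 4 * (B * L ^ 2) * Real.log n = 4 * B * (L ^ 2 * Real.log n) := by ring
    linarith
  have hw0c : 8 / δ ≤ (w₀ : ℝ) := by
    have : 0 ≤ 4 * B * (L ^ 2 * Real.log n) := by positivity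
    linarith
  have hw2 : 2 ≤ w₀ := by
    have h1 : (16 : ℝ) ≤ 8 / δ := by
      rw [le_div_iff₀ hδ]
      linarith
    have h2 : (2 : ℝ) ≤ w₀ := by linarith
    exact_mod_cast h2
  have hs2 : 2 ≤ s := hw2.trans hws
  have hs0 : (0 : ℝ) < s := by
    have : 0 < s := by omega
    exact_mod_cast this
  have hnK : (K : ℝ) ≤ n := by exact_mod_cast hKn
  set y : ℕ := n - K with hy
  have hyr : ((n : ℝ) - K) = (y : ℝ) := by
    rw [hy, Nat.cast_sub hKn]
  set d : ℕ := 2 * s * (2 * l) with hd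
  have hd0 : 0 < d := by positivity
  have hdr : (d : ℝ) ≤ 4 * s * (B * L) := by
    rw [hd]
    push_cast
    have := mul_le_mul_of_nonneg_left hlB (by positivity : (0 : ℝ) ≤ 4 * s)
    linarith
  have hdr0 : (0 : ℝ) < d := by exact_mod_cast hd0
  have hCsL : 0 < C * s * L := by positivity
  rw [hyr]
  rcases Nat.lt_or_ge (y / d) s with hx | hx
  · -- few vertices
    have h1 : y < s * d := (Nat.div_lt_iff_lt_mul hd0).mp hx
    have h2 : (y : ℝ) ≤ s * (4 * s * (B * L)) := by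
      have h3 : (y : ℝ) ≤ s * d := by exact_mod_cast h1.le
      exact h3.trans (mul_le_mul_of_nonneg_left hdr hs0.le)
    have h4 : (y : ℝ) ≤ (C * s * L) * s := by
      refine h2.trans ?_
      have h5 : 4 * B ≤ C := by
        have : 2 * B * 4 ≤ 2 * B * D := mul_le_mul_of_nonneg_left hD4 (by linarith)
        linarith
      have h6 : 4 * B * (s * s * L) ≤ C * (s * s * L) := mul_le_mul_of_nonneg_right h5 (by positivity)
      have h7 : (s : ℝ) * (4 * s * (B * L)) = 4 * B * (s * s * L) := by ring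
      have h8 : (C * s * L) * s = C * (s * s * L) := by ring
      rw [h7, h8]
      exact h6
    calc (y : ℝ) ^ 2 ≤ ((C * s * L) * s) ^ 2 := pow_le_pow_left₀ (Nat.cast_nonneg _) h4 2
      _ = (C * s * L) ^ 2 * (s : ℝ) ^ 2 := by ring
      _ ≤ (C * s * L) ^ 2 * ((s : ℝ) ^ 2 + P) := by
        apply mul_le_mul_of_nonneg_left _ (by positivity)
        linarith
  · have hx0 : y / d ≠ 0 := by omega
    obtain ⟨q, hqp, hq1, hq2⟩ := Nat.exists_prime_lt_and_le_two_mul (y / d) hx0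
    have hq0 : (0 : ℝ) < q := by
      have : 0 < q := by omega
      exact_mod_cast this
    obtain ⟨U, Ω, i1, i2, i3, i4, ng, ps, hcard, hard⟩ :=
      hE s k (2 * l) l l S hs2 hl2 (by omega) (by omega) hk1 (δ / 4) (δ / 8) hτ (by linarith) hζ
        t q r hqp (by omega)
    have hfit : s * Fintype.card U + (K - s) ≤ n := by
      rw [hcard]
      have h1 : s * (q * (2 * l)) ≤ y := by
        calc s * (q * (2 * l)) ≤ s * (2 * (y / d) * (2 * l)) := by gcongr
          _ = (y / d) * d := by rw [hd]; ring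
          _ ≤ y := Nat.div_mul_le_self _ _
      omega
    have h := NegGap.end_gap hk1 hs2 hard n K w₀ hsK hfit δ Ω' w f lev A inp out hw hw1
      hCirc hlev hr hout hpos hneg
    have hsm := small_prob δ hδ n (s * Fintype.card U) k w₀ hn (by omega) hk1 hw0b hw0c
    have hPq : 3 * δ / 2 ≤ 2 * P / (q : ℝ) ^ 2 := by
      linarith
    have hq2r : 3 * δ * (q : ℝ) ^ 2 ≤ 4 * P := by
      rw [le_div_iff₀ (by positivity)] at hPq
      linarith
    have hyq : (y : ℝ) ≤ d * q := by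
      have h1 : y < d * (y / d + 1) := Nat.lt_mul_div_succ y hd0
      have h2 : d * (y / d + 1) ≤ d * q := Nat.mul_le_mul_left _ hq1
      exact_mod_cast (h1.le.trans h2)
    have hq3 : (q : ℝ) ^ 2 ≤ 4 / (3 * δ) * P := by
      rw [div_mul_eq_mul_div, le_div_iff₀ (by positivity)]
      linarith
    have hCC : (4 * B) ^ 2 * (4 / (3 * δ)) ≤ C ^ 2 := by
      have h1 : (2 * B * D) ^ 2 ≤ C ^ 2 := pow_le_pow_left₀ (by positivity) hC2 2
      have h2 : (4 * B) ^ 2 * (4 / (3 * δ)) = (2 * B) ^ 2 * (16 / (3 * δ)) := by ring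
      have h3 : 16 / (3 * δ) ≤ D ^ 2 := by
        have h4 : 16 / (3 * δ) ≤ D := by
          rw [hD]
          linarith
        have h5 : D * 1 ≤ D * D := mul_le_mul_of_nonneg_left (by linarith) (by linarith)
        rw [pow_two]
        linarith
      rw [h2]
      refine le_trans ?_ h1
      rw [mul_pow (2 * B) D]
      exact mul_le_mul_of_nonneg_left h3 (by positivity)
    calc (y : ℝ) ^ 2 ≤ (d * q) ^ 2 := pow_le_pow_left₀ (Nat.cast_nonneg _) hyq 2
      _ = (d : ℝ) ^ 2 * (q : ℝ) ^ 2 := by ring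
      _ ≤ (4 * s * (B * L)) ^ 2 * (4 / (3 * δ) * P) := by
        apply mul_le_mul (pow_le_pow_left₀ hdr0.le hdr 2) hq3 (by positivity) (by positivity)
      _ = ((4 * B) ^ 2 * (4 / (3 * δ))) * ((s : ℝ) ^ 2 * L ^ 2 * P) := by ring
      _ ≤ C ^ 2 * ((s : ℝ) ^ 2 * L ^ 2 * P) := by
        apply mul_le_mul_of_nonneg_right hCC (by positivity)
      _ = (C * s * L) ^ 2 * P := by ring
      _ ≤ (C * s * L) ^ 2 * ((s : ℝ) ^ 2 + P) := by
        apply mul_le_mul_of_nonneg_left _ (by positivity)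
        have : 0 ≤ (s : ℝ) ^ 2 := by positivity
        linarith

end Pool.Agent.Helper6.NegGapMain
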