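import Pool.Agent.Helper6.NegApprox

/-!
# Telescoping, and independent colours
-/

set_option autoImplicit false

namespace Pool.Agent.Helper6.NegT

open Finset Pool.Agent.Helper71.Neg

/-- exchanging the colour number `i` with a fresh one -/
lemma sum_update {Col : Type} [Fintype Col] {M : ℕ} (i : Fin M) (g : (Fin M → Col) → ℕ) :
    ∑ c : Fin M → Col, ∑ c' : Col, g (Function.update c i c') =
      Fintype.card Col * ∑ c : Fin M → Col, g c := by
  classical
  have h1 : ∑ c : Fin M → Col, ∑ c' : Col, g (Function.update c i c') =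
      ∑ p : (Fin M → Col) × Col, g (Function.update p.1 i p.2) := by
    rw [Fintype.sum_prod_type]
  have h2 : ∑ p : (Fin M → Col) × Col, g (Function.update p.1 i p.2) =
      ∑ p : (Fin M → Col) × Col, g p.1 := by
    refine Finset.sum_bij' (fun p _ => (Function.update p.1 i p.2, p.1 i))
      (fun p _ => (Function.update p.1 i p.2, p.1 i)) (fun p _ => Finset.mem_univ _)
      (fun p _ => Finset.mem_univ _) ?_ ?_ ?_
    · rintro ⟨c, c'⟩ _
      simp
    · rintro ⟨c, c'⟩ _
      simp
    · rintro ⟨c, c'⟩ _
      rfl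
  rw [h1, h2, Fintype.sum_prod_type, Finset.mul_sum]
  refine Finset.sum_congr rfl fun c _ => ?_
  simp

lemma sum_tel (h : ℕ → ℕ) (M r : ℕ) (hm : ∀ i < M, h i ≤ h (i + 1)) (hr : h M ≤ r) :
    ∑ i ∈ Finset.range M, (h (i + 1) - h i) ≤ r := by
  have key : ∀ m ≤ M, ∑ i ∈ Finset.range m, (h (i + 1) - h i) + h 0 = h m := by
    intro m
    induction m with
    | zero => intro _; simp
    | succ m ih =>
      intro hmM
      rw [Finset.sum_range_succ]
      have := ih (by omega)
      have h2 := hm m (by omega)
      omega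
  have := key M le_rfl
  omega

theorem telescope {Col Γ : Type} [Fintype Col] (M r : ℕ) (A : ℕ → (Fin M → Col) → Γ)
    (add : Fin M → Γ → Col → Γ) (H : Γ → ℕ) (hr : ∀ x, H x ≤ r)
    (hA : ∀ (i : ℕ) (c c' : Fin M → Col), (∀ j : Fin M, (j : ℕ) < i → c j = c' j) → A i c = A i c')
    (hstep : ∀ (i : Fin M) (c : Fin M → Col), A (i + 1) c = add i (A i c) (c i))
    (hmono : ∀ (i : Fin M) (x : Γ) (c' : Col), H x ≤ H (add i x c')) :
    cnt (fun p : Fin M × (Fin M → Col) =>
      Fintype.card Col ≤ 2 * ∑ c', (H (add p.1 (A p.1 p.2) c') - H (A p.1 p.2))) ≤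
    2 * r * Fintype.card Col ^ M := by
  classical
  set N := Fintype.card Col with hN
  set F : Fin M × (Fin M → Col) → ℕ := fun p =>
    ∑ c', (H (add p.1 (A p.1 p.2) c') - H (A p.1 p.2)) with hF
  have hcnt : N * cnt (fun p : Fin M × (Fin M → Col) => N ≤ 2 * F p) ≤
      ∑ p : Fin M × (Fin M → Col), 2 * F p := by
    have h1 : N * cnt (fun p : Fin M × (Fin M → Col) => N ≤ 2 * F p) =
        ∑ p ∈ Finset.univ.filter (fun p : Fin M × (Fin M → Col) => N ≤ 2 * F p), N := by
      rw [Finset.sum_const, smul_eq_mul, mul_comm]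
      congr 1
      unfold cnt
      congr 1
      ext p
      constructor
      · intro h
        exact Finset.mem_filter.mpr ((NegA.mem_flt _ _ _ _).mp h)
      · intro h
        exact (NegA.mem_flt _ _ _ _).mpr (Finset.mem_filter.mp h)
    rw [h1]
    refine le_trans (Finset.sum_le_sum (g := fun p => 2 * F p) ?_) ?_
    · intro p hp
      exact (Finset.mem_filter.mp hp).2
    · exact Finset.sum_le_sum_of_subset (Finset.filter_subset _ _)
  have hlev : ∀ i : Fin M, ∑ c : Fin M → Col, F (i, c) =
      N * ∑ c : Fin M → Col, (H (A (i + 1) c) - H (A i c)) := by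
    intro i
    rw [← sum_update i (fun c => H (A (i + 1) c) - H (A i c))]
    refine Finset.sum_congr rfl fun c _ => Finset.sum_congr rfl fun c' _ => ?_
    have h1 : A i (Function.update c i c') = A i c := by
      apply hA
      intro j hj
      rw [Function.update_of_ne]
      intro h
      rw [h] at hj
      exact lt_irrefl _ hj
    have h2 : A (i + 1) (Function.update c i c') = add i (A i c) c' := by
      rw [hstep, h1, Function.update_self]
    show H (add i (A i c) c') - H (A i c) = _
    rw [h1, h2]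
  have hsum : ∑ p : Fin M × (Fin M → Col), 2 * F p ≤ N * (2 * r * N ^ M) := by
    rw [← Finset.mul_sum, Fintype.sum_prod_type]
    rw [Finset.sum_congr rfl (fun i _ => hlev i), ← Finset.mul_sum, Finset.sum_comm]
    have h3 : ∀ c : Fin M → Col, ∑ i : Fin M, (H (A (i + 1) c) - H (A i c)) ≤ r := by
      intro c
      have h4 := Fin.sum_univ_eq_sum_range (fun i => H (A (i + 1) c) - H (A i c)) M
      rw [h4]
      apply sum_tel (fun i => H (A i c))
      · intro i hi
        have h5 := hstep ⟨i, hi⟩ c
        have h6 := hmono ⟨i, hi⟩ (A i c) (c ⟨i, hi⟩)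
        show H (A i c) ≤ H (A (i + 1) c)
        rw [h5]
        exact h6
      · exact hr _
    have h7 : ∑ c : Fin M → Col, ∑ i : Fin M, (H (A (i + 1) c) - H (A i c)) ≤ N ^ M * r := by
      refine (Finset.sum_le_sum (fun c _ => h3 c)).trans ?_
      rw [Finset.sum_const, smul_eq_mul, Finset.card_univ, Fintype.card_fun, Fintype.card_fin]
    calc 2 * (N * ∑ c : Fin M → Col, ∑ i : Fin M, (H (A (i + 1) c) - H (A i c)))
        ≤ 2 * (N * (N ^ M * r)) := by gcongr
      _ = N * (2 * r * N ^ M) := by ring
  have hfin := hcnt.trans hsum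
  rcases Nat.eq_zero_or_pos N with h0 | h0
  · -- no colours
    have hE : IsEmpty Col := Fintype.card_eq_zero_iff.mp (hN ▸ h0)
    have : cnt (fun p : Fin M × (Fin M → Col) => N ≤ 2 * F p) = 0 := by
      unfold cnt
      rw [Finset.card_eq_zero, Finset.eq_empty_iff_forall_notMem]
      rintro ⟨i, c⟩ _
      exact hE.elim (c i)
    rw [this]
    exact Nat.zero_le _
  · exact Nat.le_of_mul_le_mul_left hfin h0

/-- the number of colourings without zeros on `F` -/
theorem cnt_ne {E : Type} [Fintype E] [DecidableEq E] (k : ℕ) (hk : 1 ≤ k) (F : Finset E) :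
    k ^ F.card * cnt (fun c : E → Fin k => ∀ e ∈ F, (c e : ℕ) ≠ 0) =
      (k - 1) ^ F.card * k ^ Fintype.card E := by
  classical
  have hk0 : NeZero k := ⟨by omega⟩
  have h1 : (univ.filter (fun c : E → Fin k => ∀ e ∈ F, (c e : ℕ) ≠ 0)) = Fintype.piFinset
      (fun e => if e ∈ F then (Finset.univ.erase (0 : Fin k)) else Finset.univ) := by
    ext d
    rw [Finset.mem_filter, Fintype.mem_piFinset]
    constructor
    · intro h v
      by_cases hv : v ∈ F
      · rw [if_pos hv, Finset.mem_erase]
        refine ⟨?_, Finset.mem_univ _⟩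
        intro h0
        apply h.2 v hv
        rw [h0]
        simp
      · simp [hv]
    · intro h
      refine ⟨Finset.mem_univ _, fun v hv => ?_⟩
      have := h v
      rw [if_pos hv, Finset.mem_erase] at this
      intro h0
      exact this.1 (Fin.ext (by simpa using h0))
  have h0 : cnt (fun c : E → Fin k => ∀ e ∈ F, (c e : ℕ) ≠ 0)
      = (univ.filter (fun c : E → Fin k => ∀ e ∈ F, (c e : ℕ) ≠ 0)).card := by
    unfold cnt
    congr 1
    ext c
    constructor
    · intro h
      exact Finset.mem_filter.mpr ((NegA.mem_flt _ _ _ _).mp h)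
    · intro h
      exact (NegA.mem_flt _ _ _ _).mpr (Finset.mem_filter.mp h)
  rw [h0, h1, Fintype.card_piFinset]
  have h2 : ∀ v : E, (if v ∈ F then (Finset.univ.erase (0 : Fin k)) else Finset.univ).card
      = if v ∈ F then k - 1 else k := by
    intro v
    by_cases hv : v ∈ F
    · simp [hv]
    · simp [hv]
  have h4 : (Finset.univ.filter (fun v => v ∈ F)) = F := by
    ext v; simp
  have h5 := Finset.card_filter_add_card_filter_not (s := (Finset.univ : Finset E)) (fun v => v ∈ F)
  rw [h4, Finset.card_univ] at h5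
  rw [Finset.prod_congr rfl (fun v _ => h2 v), Finset.prod_ite, Finset.prod_const,
    Finset.prod_const, h4, ← h5, pow_add]
  ring

end Pool.Agent.Helper6.NegT
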